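import Pool.Agent.W254.PA.Transfer
import Pool.Agent.TH379.PER.Core

set_option autoImplicit false

/-!
# Consequences of the hyperplane property over arbitrary fields
-/

namespace Pool.Agent.X148.TR

open Module
open Pool.Agent.W254.PA (Hyp)
open Pool.Agent.TH379.PER (pi_kernel)

variable {k E : Type*} [Field k] [Field E] [Algebra k E]

/-- the space of all `v` such that `x i * v ∈ F` for every `i` -/
def MultE {d : ℕ} (x : Fin d → E) (F : Submodule k E) : Submodule k E where
  carrier := {v | ∀ i, x i * v ∈ F}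
  add_mem' := fun {u v} hu hv i => by
    rw [mul_add]; exact F.add_mem (hu i) (hv i)
  zero_mem' := fun i => by rw [mul_zero]; exact F.zero_mem
  smul_mem' := fun c v hv i => by
    rw [mul_smul_comm]; exact F.smul_mem c (hv i)

/-- a space without `m + 1` independent elements -/
lemma rank_le_ofE (K : Submodule k E) (m : ℕ)
    (h : ∀ y : Fin (m + 1) → E, (∀ j, y j ∈ K) → ¬ LinearIndependent k y) :
    Module.rank k K ≤ m := by
  classical
  apply rank_le
  intro s hs
  by_contra hc
  have hc : m + 1 ≤ s.card := by omega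
  let f : Fin (m + 1) → s := fun j => s.equivFin.symm (Fin.castLE hc j)
  have hf : Function.Injective f := by
    intro a b hab
    exact Fin.castLE_injective hc (s.equivFin.symm.injective hab)
  refine h (fun j => ((f j : K) : E)) (fun j => (f j : K).2) ?_
  exact (hs.comp f hf).map' K.subtype K.ker_subtype

/-- two by three matrices -/
lemma six_abs {V : Submodule k E} (hV : Hyp V) {x : Fin 2 → E} {y : Fin 3 → E}
    (hx : LinearIndependent k x) (hy : LinearIndependent k y) (h : ∀ i j, x i * y j ∈ V) :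
    False := by
  have hx0 : x 0 ≠ 0 := hx.ne_zero 0
  have hx' : LinearIndependent k ![x 1, -x 0] := by
    rw [LinearIndependent.pair_iff]
    intro s t hst
    have h1 := Fintype.linearIndependent_iff.mp hx ![-t, s] (by
      rw [Fin.sum_univ_two]
      simp only [Matrix.cons_val_zero, Matrix.cons_val_one]
      have h2 : s • x 1 + t • (-x 0) = 0 := hst
      rw [smul_neg] at h2
      rw [neg_smul, add_comm]
      exact h2)
    exact ⟨h1 1, neg_eq_zero.mp (h1 0)⟩
  have h3 := hV 2 3 ![x 1, -x 0] (fun i j => x i * y j) hx' h (by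
    intro j
    rw [Fin.sum_univ_two]
    simp only [Matrix.cons_val_zero, Matrix.cons_val_one]
    ring) (by
    rw [Fintype.linearIndependent_iff] at hy ⊢
    intro c hc
    apply hy c
    have h4 := congrFun hc 0
    simp only [Finset.sum_apply, Pi.smul_apply, Pi.zero_apply] at h4
    have h5 : x 0 * ∑ j, c j • y j = 0 := by
      rw [Finset.mul_sum, ← h4]
      exact Finset.sum_congr rfl (fun j _ => mul_smul_comm _ _ _)
    exact (mul_eq_zero.mp h5).resolve_left hx0)
  omega

lemma kernelE {V : Submodule k E} (hV : Hyp V) {d : ℕ} {x : Fin d → E} (hd : 2 ≤ d)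
    (hx : LinearIndependent k x) : Module.rank k (MultE x V) ≤ ((if d = 2 then 2 else 1 : ℕ)) := by
  split_ifs with h
  · subst h
    apply rank_le_ofE
    intro y hy hli
    exact six_abs hV hx hli (fun i j => hy j i)
  · apply rank_le_ofE
    intro y hy hli
    have hx3 : LinearIndependent k (fun j : Fin 3 => x (Fin.castLE (by omega : 3 ≤ d) j)) :=
      hx.comp _ (Fin.castLE_injective _)
    exact six_abs hV (x := y) hli hx3 (fun i j => by rw [mul_comm]; exact hy i _)

/-- **Multiplier spaces.** -/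
theorem rank_MultE {V : Submodule k E} (hV : Hyp V) (Γ : Submodule k E) [FiniteDimensional k Γ]
    {d : ℕ} {x : Fin d → E} (hd : 2 ≤ d) (hx : LinearIndependent k x) :
    Module.rank k (MultE x (V ⊔ Γ)) ≤
      ((d * finrank k Γ + (if d = 2 then 2 else 1) : ℕ) : Cardinal) := by
  classical
  set M := MultE x (V ⊔ Γ) with hM
  let W : Submodule k (E ⧸ V) := Γ.map V.mkQ
  have hW : finrank k W ≤ finrank k Γ := Submodule.finrank_map_le V.mkQ _
  have hFW : ∀ v ∈ V ⊔ Γ, V.mkQ v ∈ W := by
    intro v hv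
    have h2 : V.mkQ v ∈ (V ⊔ Γ).map V.mkQ := Submodule.mem_map_of_mem hv
    rw [Submodule.map_sup, Submodule.mkQ_map_self, bot_sup_eq] at h2
    exact h2
  let φ : M →ₗ[k] (Fin d → W) := LinearMap.pi (fun i =>
    ((V.mkQ ∘ₗ (LinearMap.mulLeft k (x i))) ∘ₗ M.subtype).codRestrict W
      (fun v => hFW _ (v.2 i)))
  have hφ : ∀ (v : M) i, ((φ v i : W) : E ⧸ V) = V.mkQ (x i * (v : E)) := fun v i => rfl
  have h1 := LinearMap.rank_range_add_rank_ker φ
  have h2 : Module.rank k (LinearMap.range φ) ≤ ((d * finrank k Γ : ℕ) : Cardinal) := by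
    refine (Submodule.rank_le _).trans ?_
    have h3 : finrank k (Fin d → W) = d * finrank k W := by
      rw [Module.finrank_pi_fintype, Finset.sum_const, Finset.card_univ, Fintype.card_fin,
        smul_eq_mul]
    rw [← Module.finrank_eq_rank, h3]
    exact_mod_cast Nat.mul_le_mul_left d hW
  have h3 : Module.rank k (LinearMap.ker φ) ≤ (((if d = 2 then 2 else 1 : ℕ)) : Cardinal) := by
    have h4 : (LinearMap.ker φ).map M.subtype ≤ MultE x V := by
      rintro _ ⟨v, hv, rfl⟩ i
      have h5 : φ v = 0 := hv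
      have h6 := hφ v i
      rw [h5] at h6
      exact (Submodule.Quotient.mk_eq_zero V).mp h6.symm
    have h5 := (Submodule.equivMapOfInjective M.subtype M.injective_subtype
      (LinearMap.ker φ)).rank_eq
    rw [h5]
    exact (Submodule.rank_mono h4).trans (kernelE hV hd hx)
  rw [← h1, Nat.cast_add]
  exact add_le_add h2 h3

theorem finrank_MultE {V : Submodule k E} (hV : Hyp V) (Γ : Submodule k E)
    [FiniteDimensional k Γ] {d : ℕ} {x : Fin d → E} (hd : 2 ≤ d) (hx : LinearIndependent k x) :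
    FiniteDimensional k (MultE x (V ⊔ Γ)) ∧
      finrank k (MultE x (V ⊔ Γ)) ≤ d * finrank k Γ + (if d = 2 then 2 else 1) := by
  have h1 := rank_MultE hV Γ hd hx
  have h2 : FiniteDimensional k (MultE x (V ⊔ Γ)) :=
    Module.rank_lt_aleph0_iff.mp (h1.trans_lt Cardinal.natCast_lt_aleph0)
  refine ⟨h2, ?_⟩
  rw [← Module.finrank_eq_rank] at h1
  exact_mod_cast h1

lemma exists_indep_in_ker {M N : Type*} [AddCommGroup M] [Module k M] [AddCommGroup N]
    [Module k N] (Θ : M →ₗ[k] N) : ∃ b : Fin (finrank k (LinearMap.ker Θ)) → M,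
      LinearIndependent k b ∧ ∀ j, Θ (b j) = 0 := by
  obtain ⟨b, hb⟩ := exists_linearIndependent_of_le_finrank (le_refl (finrank k (LinearMap.ker Θ)))
  exact ⟨fun j => (b j : M), hb.map' (LinearMap.ker Θ).subtype (LinearMap.ker Θ).ker_subtype,
    fun j => (b j).2⟩

lemma indep_coe {V : Submodule k E} {d l : ℕ} {b : Fin l → Fin d → V}
    (hb : LinearIndependent k b) : LinearIndependent k (fun j i => ((b j i : V) : E)) := by
  let ι : (Fin d → V) →ₗ[k] (Fin d → E) := LinearMap.pi (fun i => V.subtype ∘ₗ LinearMap.proj i)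
  have hι : LinearMap.ker ι = ⊥ := by
    rw [LinearMap.ker_eq_bot]
    intro u v huv
    funext i
    apply Subtype.ext
    exact congrFun huv i
  exact hb.map' ι hι

/-- **Basic inequality.** -/
theorem coreE {V₀ : Submodule k E} (hV₀ : Hyp V₀) {d : ℕ} (x : Fin d → E)
    (hx : LinearIndependent k x) (V Z Γ : Submodule k E)
    [FiniteDimensional k V] [FiniteDimensional k Z] [FiniteDimensional k Γ]
    (hZ : ∀ i, ∀ v ∈ V, x i * v ∈ Z) (hV : V ≤ V₀ ⊔ Γ) :
    d * finrank k V ≤ finrank k Z + d * (d - 1) + d * finrank k Γ := by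
  classical
  let W : Submodule k (E ⧸ V₀) := V.map V₀.mkQ
  have hW : finrank k W ≤ finrank k Γ := by
    have h1 : W ≤ Γ.map V₀.mkQ := by
      have h2 : W ≤ (V₀ ⊔ Γ).map V₀.mkQ := Submodule.map_mono hV
      rw [Submodule.map_sup, Submodule.mkQ_map_self, bot_sup_eq] at h2
      exact h2
    exact (Submodule.finrank_mono h1).trans (Submodule.finrank_map_le V₀.mkQ Γ)
  let θ1 : (Fin d → V) →ₗ[k] E :=
    ∑ i, (LinearMap.mulLeft k (x i)) ∘ₗ V.subtype ∘ₗ (LinearMap.proj i)
  have hθ1 : ∀ v, θ1 v = ∑ i, x i * (v i : E) := by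
    intro v
    simp only [θ1, LinearMap.sum_apply, LinearMap.comp_apply, LinearMap.mulLeft_apply,
      LinearMap.proj_apply, Submodule.subtype_apply]
  have hθ1Z : ∀ v, θ1 v ∈ Z := by
    intro v
    rw [hθ1]
    exact Submodule.sum_mem _ (fun i _ => hZ i _ (v i).2)
  let θ2 : (Fin d → V) →ₗ[k] (Fin d → W) :=
    LinearMap.pi (fun i => (V₀.mkQ.submoduleMap V) ∘ₗ (LinearMap.proj i))
  have hθ2 : ∀ v i, ((θ2 v i : W) : E ⧸ V₀) = V₀.mkQ (v i : E) := fun v i => rfl
  let Θ : (Fin d → V) →ₗ[k] (Z × (Fin d → W)) := (θ1.codRestrict Z hθ1Z).prod θ2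
  have hpk := pi_kernel Θ
  have hker : finrank k (LinearMap.ker Θ) ≤ d * (d - 1) := by
    obtain ⟨b, hb, hb0⟩ := exists_indep_in_ker Θ
    have hb1 : ∀ j, θ1 (b j) = 0 := by
      intro j
      have h2 : θ1.codRestrict Z hθ1Z (b j) = 0 := congrArg Prod.fst (hb0 j)
      exact congrArg (fun z : Z => (z : E)) h2
    have hb2 : ∀ j i, V₀.mkQ ((b j i : V) : E) = 0 := by
      intro j i
      have h3 : θ2 (b j) = 0 := congrArg Prod.snd (hb0 j)
      rw [← hθ2, h3]
      rfl
    refine hV₀ d _ x (fun i j => ((b j i : V) : E)) hx ?_ ?_ (indep_coe hb)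
    · intro i j
      exact (Submodule.Quotient.mk_eq_zero V₀).mp (hb2 j i)
    · intro j
      rw [← hθ1]
      exact hb1 j
  have h5 : d * finrank k W ≤ d * finrank k Γ := Nat.mul_le_mul_left d hW
  have h6 : finrank k (LinearMap.ker Θ) ≤ d * (d - 1) := hker
  omega

/-- the polynomials `P` of degree at most `D` with `v P(u) ∈ F` -/
noncomputable def PolyIn (F : Submodule k E) (v u : E) (D : ℕ) : Submodule k (Polynomial k) :=
  F.comap ((LinearMap.mulLeft k v) ∘ₗ (Polynomial.aeval u).toLinearMap) ⊓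
    Polynomial.degreeLT k (D + 1)

lemma mem_PolyIn {F : Submodule k E} {v u : E} {D : ℕ} {P : Polynomial k} :
    P ∈ PolyIn F v u D ↔ v * Polynomial.aeval u P ∈ F ∧ P.degree < ((D + 1 : ℕ) : WithBot ℕ) := by
  unfold PolyIn
  rw [Submodule.mem_inf, Polynomial.mem_degreeLT]
  rfl

instance finDegreeLT (D : ℕ) : FiniteDimensional k (Polynomial.degreeLT k D) :=
  Module.Finite.equiv (Polynomial.degreeLTEquiv k D).symm

lemma powE_indep {u : E} (hu : Transcendental k u) (N : ℕ) :
    LinearIndependent k (fun i : Fin N => u ^ (i : ℕ)) := by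
  have h1 : LinearIndependent k (fun n : ℕ => u ^ n) := by
    have h2 := (Polynomial.basisMonomials k).linearIndependent
    have h3 : LinearMap.ker (Polynomial.aeval (R := k) u).toLinearMap = ⊥ := by
      rw [LinearMap.ker_eq_bot]
      exact transcendental_iff_injective.mp hu
    have h4 := h2.map' _ h3
    have h5 : ((Polynomial.aeval (R := k) u).toLinearMap ∘ (Polynomial.basisMonomials k)) =
        (fun n : ℕ => u ^ n) := by
      funext n
      simp [Polynomial.coe_basisMonomials, Polynomial.aeval_monomial]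
    rw [h5] at h4
    exact h4
  exact h1.comp _ Fin.val_injective

theorem polyE_ineq {V : Submodule k E} (hV : Hyp V) (Γ : Submodule k E) [FiniteDimensional k Γ]
    {v u : E} (hv : v ≠ 0) (hu : Transcendental k u) (D d : ℕ) (hd : 1 ≤ d) :
    d * finrank k (PolyIn (V ⊔ Γ) v u D) ≤ D + d ^ 2 + d * finrank k Γ := by
  classical
  let ψ : Polynomial k →ₗ[k] E := (LinearMap.mulLeft k v) ∘ₗ (Polynomial.aeval u).toLinearMap
  have hψ' : ∀ P, ψ P = v * Polynomial.aeval u P := fun P => rfl
  have hψ : Function.Injective ψ := by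
    intro P Q hPQ
    rw [hψ', hψ'] at hPQ
    exact transcendental_iff_injective.mp hu (mul_left_cancel₀ hv hPQ)
  let W := (PolyIn (V ⊔ Γ) v u D).map ψ
  let Z := (Polynomial.degreeLT k (D + d)).map ψ
  have hfin : FiniteDimensional k (PolyIn (V ⊔ Γ) v u D) :=
    Submodule.finiteDimensional_of_le inf_le_right
  have : FiniteDimensional k W := Module.Finite.map _ _
  have : FiniteDimensional k Z := Module.Finite.map _ _
  have hW : finrank k W = finrank k (PolyIn (V ⊔ Γ) v u D) :=
    (Submodule.equivMapOfInjective ψ hψ (PolyIn (V ⊔ Γ) v u D)).finrank_eq.symm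
  have hZ : finrank k Z ≤ D + d := by
    refine (Submodule.finrank_map_le ψ _).trans ?_
    rw [(Polynomial.degreeLTEquiv k (D + d)).finrank_eq, Module.finrank_fin_fun]
  have h1 := coreE hV (d := d) (fun i => u ^ (i : ℕ)) (powE_indep hu d) W Z Γ ?_ ?_
  · rw [hW] at h1
    obtain ⟨e, rfl⟩ : ∃ e, d = e + 1 := ⟨d - 1, by omega⟩
    have h7 : (e + 1) ^ 2 = (e + 1) * (e + 1 - 1) + (e + 1) := by
      rw [Nat.add_sub_cancel]; ring
    omega
  · rintro i _ ⟨P, hP, rfl⟩
    refine ⟨Polynomial.X ^ (i : ℕ) * P, ?_, ?_⟩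
    · rw [SetLike.mem_coe, Polynomial.mem_degreeLT]
      have h2 : P.degree < ((D + 1 : ℕ) : WithBot ℕ) := Polynomial.mem_degreeLT.mp hP.2
      by_cases h0 : P = 0
      · subst h0
        rw [mul_zero, Polynomial.degree_zero]
        exact WithBot.bot_lt_coe _
      · have h3 : P.natDegree < D + 1 := (Polynomial.natDegree_lt_iff_degree_lt h0).mpr h2
        have h4 := i.isLt
        refine lt_of_le_of_lt (Polynomial.degree_mul_le _ _) ?_
        rw [Polynomial.degree_X_pow, Polynomial.degree_eq_natDegree h0]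
        have h5 : (i : ℕ) + P.natDegree < D + d := by omega
        exact_mod_cast h5
    · rw [hψ', hψ', map_mul, map_pow, Polynomial.aeval_X]
      ring
  · rintro _ ⟨P, hP, rfl⟩
    exact hP.1

end Pool.Agent.X148.TR
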