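import Pool.Agent.X148.TR.Mult

set_option autoImplicit false

/-!
# Exponents `α` for which `e ^ α` is a linear form in periods of one variable
-/

namespace Pool.Agent.X148.TR

open Module
open Pool.Agent.H301R2.SSE (QB mem_QB Lt Lt_rep Lt_mul Lt_alg Lt_log strong_six)
open Pool.Agent.TH379.PER
open scoped Pointwise

lemma encard_le_of_finset {α : Type*} (s : Set α) (n : ℕ)
    (h : ∀ t : Finset α, (t : Set α) ⊆ s → t.card ≤ n) : s.encard ≤ n := by
  by_cases hs : s.Finite
  · have h1 := h hs.toFinset (by rw [Set.Finite.coe_toFinset])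
    rw [hs.encard_eq_coe_toFinset_card]
    exact_mod_cast h1
  · exfalso
    have hs' : s.Infinite := hs
    obtain ⟨t, ht, hc⟩ := hs'.exists_subset_card_eq (n + 1)
    have := h t ht
    omega

/-- exponentials at algebraic points in a multiplier space -/
theorem exp_Mult {d g : ℕ} (γ : Fin g → ℂ) {x : Fin d → ℂ} (hd : 2 ≤ d)
    (hx : LinearIndependent QB x) :
    {α : ℂ | IsAlgebraic ℚ α ∧ ∀ i, x i * Complex.exp α ∈ Forms γ}.encard ≤
      ((d * g + kk d : ℕ) : ℕ∞) := by
  classical
  apply encard_le_of_finset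
  intro t ht
  have hfin := finite_Mult γ hd hx
  refine le_trans ?_ (finrank_Mult γ hd hx)
  have hli := exp_indep t (fun a ha => (ht ha).1)
  have hmem : ∀ a : t, Complex.exp (a : ℂ) ∈ Mult x (Forms γ) := fun a => (ht a.2).2
  have hli2 : LinearIndependent QB
      (fun a : t => (⟨Complex.exp (a : ℂ), hmem a⟩ : Mult x (Forms γ))) := by
    apply LinearIndependent.of_comp (Mult x (Forms γ)).subtype
    exact hli
  have h3 := hli2.fintype_card_le_finrank
  rwa [Fintype.card_coe] at h3

theorem transcendental_exp {h : ℂ} (hh : IsAlgebraic ℚ h) (h0 : h ≠ 0) :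
    Transcendental ℚ (Complex.exp h) := by
  classical
  intro halg
  have h1 := exp_indep {0, h} (by
    intro a ha
    rw [Finset.mem_insert, Finset.mem_singleton] at ha
    rcases ha with rfl | rfl
    · exact isAlgebraic_zero
    · exact hh)
  rw [Fintype.linearIndependent_iff] at h1
  have h2 := h1 (fun a => if (a : ℂ) = 0 then ⟨Complex.exp h, mem_QB.mpr halg⟩ else -1) (by
    have h3 : ∀ f : ℂ → ℂ, ∑ a : ({0, h} : Finset ℂ), f a = f 0 + f h := by
      intro f
      rw [Finset.sum_coe_sort ({0, h} : Finset ℂ) f,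
        Finset.sum_insert (by rw [Finset.mem_singleton]; exact h0.symm), Finset.sum_singleton]
    have h4 := h3 (fun a => (if a = 0 then (⟨Complex.exp h, mem_QB.mpr halg⟩ : QB) else -1) •
      Complex.exp a)
    refine h4.trans ?_
    rw [if_pos rfl, if_neg h0, Complex.exp_zero]
    show Complex.exp h * 1 + ((-1 : QB) : ℂ) * Complex.exp h = 0
    push_cast
    ring) ⟨0, Finset.mem_insert_self _ _⟩
  rw [if_pos rfl] at h2
  exact Complex.exp_ne_zero h (congrArg Subtype.val h2)

/-- a single multiplier -/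
theorem exp_pair {g : ℕ} (γ : Fin g → ℂ) {u : ℂ} (hu : Transcendental ℚ u) :
    {α : ℂ | IsAlgebraic ℚ α ∧ Complex.exp α ∈ Forms γ ∧ u * Complex.exp α ∈ Forms γ}.encard ≤
      ((2 * g + 2 : ℕ) : ℕ∞) := by
  have h1 := exp_Mult γ le_rfl (pair_indep hu)
  refine (Set.encard_le_encard ?_).trans h1
  rintro α ⟨h2, h3, h4⟩
  refine ⟨h2, fun i => ?_⟩
  fin_cases i
  · show 1 * Complex.exp α ∈ _
    rwa [one_mul]
  · exact h4

/-- two exponents with a given difference -/
theorem exp_diff {g : ℕ} (γ : Fin g → ℂ) {h : ℂ} (hh : IsAlgebraic ℚ h) (h0 : h ≠ 0) :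
    {α : ℂ | IsAlgebraic ℚ α ∧ Complex.exp α ∈ Forms γ ∧ Complex.exp (α + h) ∈ Forms γ}.encard ≤
      ((2 * g + 2 : ℕ) : ℕ∞) := by
  refine le_trans (Set.encard_le_encard ?_) (exp_pair γ (transcendental_exp hh h0))
  rintro α ⟨h2, h3, h4⟩
  refine ⟨h2, h3, ?_⟩
  rwa [mul_comm, ← Complex.exp_add]

/-- three or more exponents with given differences -/
theorem exp_many {g d : ℕ} (γ : Fin g → ℂ) (hd : 3 ≤ d) {h : Fin d → ℂ}
    (hh : ∀ i, IsAlgebraic ℚ (h i)) (hinj : Function.Injective h) :
    {α : ℂ | IsAlgebraic ℚ α ∧ ∀ i, Complex.exp (α + h i) ∈ Forms γ}.encard ≤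
      ((d * g + 1 : ℕ) : ℕ∞) := by
  classical
  have hx : LinearIndependent QB (fun i => Complex.exp (h i)) := by
    have h1 := exp_indep (Finset.univ.image h) (by
      intro a ha
      obtain ⟨i, _, rfl⟩ := Finset.mem_image.mp ha
      exact hh i)
    exact h1.comp (fun i => ⟨h i, Finset.mem_image_of_mem _ (Finset.mem_univ i)⟩) (by
      intro a b hab
      exact hinj (congrArg Subtype.val hab))
  have h1 := exp_Mult γ (by omega) hx
  have h2 : kk d = 1 := by unfold kk; rw [if_neg (by omega)]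
  rw [h2] at h1
  refine le_trans (Set.encard_le_encard ?_) h1
  rintro α ⟨h3, h4⟩
  refine ⟨h3, fun i => ?_⟩
  rw [← Complex.exp_add, add_comm]
  exact h4 i

open Classical in
/-- the elements of `S` that are good exponents -/
noncomputable def good {g : ℕ} (γ : Fin g → ℂ) (S : Finset ℂ) : Finset ℂ :=
  S.filter (fun a => Complex.exp a ∈ Forms γ)

/-- **Counting in finite sets.** -/
theorem good_card {g : ℕ} (γ : Fin g → ℂ) (S : Finset ℂ) (hS : ∀ a ∈ S, IsAlgebraic ℚ a) :
    (good γ S).card * ((good γ S).card - 1) ≤ (2 * g + 2) * ((S - S).card - 1) := by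
  classical
  rcases S.eq_empty_or_nonempty with rfl | hne
  · simp [good]
  have h1 : (good γ S).offDiag.card ≤ (2 * g + 2) * ((S - S).erase 0).card := by
    apply Finset.card_le_mul_card_image_of_maps_to (f := fun p : ℂ × ℂ => p.1 - p.2)
    · intro p hp
      rw [Finset.mem_offDiag] at hp
      obtain ⟨ha, hb, hab⟩ := hp
      rw [Finset.mem_erase]
      exact ⟨sub_ne_zero.mpr hab, Finset.sub_mem_sub (Finset.mem_filter.mp ha).1
        (Finset.mem_filter.mp hb).1⟩
    · intro h hh
      rw [Finset.mem_erase] at hh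
      obtain ⟨h0, hmem⟩ := hh
      obtain ⟨a, ha, b, hb, rfl⟩ := Finset.mem_sub.mp hmem
      have halg : IsAlgebraic ℚ (a - b) := (hS a ha).sub (hS b hb)
      have h2 := exp_diff γ halg h0
      set T := ((good γ S).offDiag.filter (fun p : ℂ × ℂ => p.1 - p.2 = a - b)) with hT
      have h3 : (T.image Prod.snd).card = T.card := by
        apply Finset.card_image_of_injOn
        intro p hp q hq hpq
        have hp2 := (Finset.mem_filter.mp hp).2
        have hq2 := (Finset.mem_filter.mp hq).2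
        have hpq' : p.2 = q.2 := hpq
        refine Prod.ext ?_ hpq'
        have h5 : p.1 - p.2 = q.1 - q.2 := hp2.trans hq2.symm
        rw [hpq'] at h5
        exact sub_left_inj.mp h5
      have h4 : ((T.image Prod.snd : Finset ℂ) : Set ℂ) ⊆
          {α : ℂ | IsAlgebraic ℚ α ∧ Complex.exp α ∈ Forms γ ∧
            Complex.exp (α + (a - b)) ∈ Forms γ} := by
        intro z hz
        obtain ⟨p, hp, rfl⟩ := Finset.mem_image.mp (Finset.mem_coe.mp hz)
        have hp1 := (Finset.mem_filter.mp hp).1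
        have hp2 := (Finset.mem_filter.mp hp).2
        rw [Finset.mem_offDiag] at hp1
        obtain ⟨h5, h6, h7⟩ := hp1
        refine ⟨hS _ (Finset.mem_filter.mp h6).1, (Finset.mem_filter.mp h6).2, ?_⟩
        rw [← hp2, add_sub_cancel]
        exact (Finset.mem_filter.mp h5).2
      have h5 := (Set.encard_le_encard h4).trans h2
      rw [Set.encard_coe_eq_coe_finsetCard, h3] at h5
      exact_mod_cast h5
  have h2 : (0 : ℂ) ∈ S - S := by
    obtain ⟨a, ha⟩ := hne
    exact Finset.mem_sub.mpr ⟨a, ha, a, ha, sub_self a⟩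
  rw [Finset.card_erase_of_mem h2, Finset.offDiag_card] at h1
  have h3 : (good γ S).card * ((good γ S).card - 1) =
      (good γ S).card * (good γ S).card - (good γ S).card := by
    rw [Nat.mul_sub, mul_one]
  rw [h3]
  exact h1

/-- the points of a box -/
noncomputable def boxS {r : ℕ} (α : Fin r → ℂ) (N : ℕ) : Finset ℂ :=
  (Finset.univ : Finset (Fin r → Fin N)).image (fun n => ∑ i, ((n i : ℕ) : ℂ) * α i)

lemma card_sub_box {r : ℕ} (α : Fin r → ℂ) {N : ℕ} (hN : 1 ≤ N) :
    (boxS α N - boxS α N).card ≤ (2 * N - 1) ^ r := by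
  classical
  have h1 : boxS α N - boxS α N ⊆ (Finset.univ : Finset (Fin r → Fin (2 * N - 1))).image
      (fun m => ∑ i, (((m i : ℕ) : ℂ) - ((N - 1 : ℕ) : ℂ)) * α i) := by
    intro z hz
    obtain ⟨a, ha, b, hb, rfl⟩ := Finset.mem_sub.mp hz
    obtain ⟨n, _, rfl⟩ := Finset.mem_image.mp ha
    obtain ⟨m, _, rfl⟩ := Finset.mem_image.mp hb
    refine Finset.mem_image.mpr ⟨fun i => ⟨(n i : ℕ) + (N - 1) - (m i : ℕ), ?_⟩,
      Finset.mem_univ _, ?_⟩
    · have h1 := (n i).isLt
      have h2 := (m i).isLt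
      omega
    · rw [← Finset.sum_sub_distrib]
      refine Finset.sum_congr rfl (fun i _ => ?_)
      have h2 := (m i).isLt
      have h3 : ((((n i : ℕ) + (N - 1) - (m i : ℕ) : ℕ)) : ℂ) =
          ((n i : ℕ) : ℂ) + ((N - 1 : ℕ) : ℂ) - ((m i : ℕ) : ℂ) := by
        rw [Nat.cast_sub (by omega), Nat.cast_add]
      show (((((n i : ℕ) + (N - 1) - (m i : ℕ) : ℕ)) : ℂ) - ((N - 1 : ℕ) : ℂ)) * α i = _
      rw [h3]
      ring
  refine (Finset.card_le_card h1).trans (Finset.card_image_le.trans ?_)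
  rw [Finset.card_univ, Fintype.card_fun, Fintype.card_fin, Fintype.card_fin]

/-- counting integer points of a box -/
theorem box_count {g r : ℕ} (γ : Fin g → ℂ) {α : Fin r → ℂ} (hα : ∀ i, IsAlgebraic ℚ (α i))
    (hli : LinearIndependent ℚ α) {N : ℕ} (hN : 1 ≤ N) (s : ℕ)
    (hs : s = Set.ncard {n : Fin r → Fin N | Complex.exp (∑ i, ((n i : ℕ) : ℂ) * α i) ∈ Forms γ}) :
    s * (s - 1) ≤ (2 * g + 2) * ((2 * N - 1) ^ r - 1) := by
  classical
  have hinj : Function.Injective (fun n : Fin r → Fin N => ∑ i, ((n i : ℕ) : ℂ) * α i) := by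
    intro n m hnm
    have hnm' : ∑ i, ((n i : ℕ) : ℂ) * α i = ∑ i, ((m i : ℕ) : ℂ) * α i := hnm
    have h1 := Fintype.linearIndependent_iff.mp hli
      (fun i => ((n i : ℕ) : ℚ) - ((m i : ℕ) : ℚ)) (by
        simp only [Rat.smul_def, Rat.cast_sub, Rat.cast_natCast, sub_mul,
          Finset.sum_sub_distrib]
        rw [hnm', sub_self])
    funext i
    have h2 := h1 i
    rw [sub_eq_zero] at h2
    exact Fin.ext (by exact_mod_cast h2)
  have halg : ∀ a ∈ boxS α N, IsAlgebraic ℚ a := by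
    intro a ha
    obtain ⟨n, _, rfl⟩ := Finset.mem_image.mp ha
    exact mem_QB.mp (sum_mem (fun i _ => mem_QB.mpr ((isAlgebraic_natCast (n i : ℕ)).mul (hα i))))
  have h1 := good_card γ (boxS α N) halg
  have h2 : (good γ (boxS α N)).card = s := by
    rw [hs]
    have h3 : good γ (boxS α N) =
        ((Finset.univ : Finset (Fin r → Fin N)).filter (fun n =>
          Complex.exp (∑ i, ((n i : ℕ) : ℂ) * α i) ∈ Forms γ)).image
          (fun n => ∑ i, ((n i : ℕ) : ℂ) * α i) := by
      ext z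
      constructor
      · intro hz
        obtain ⟨hz1, hz2⟩ := Finset.mem_filter.mp hz
        obtain ⟨n, _, rfl⟩ := Finset.mem_image.mp hz1
        exact Finset.mem_image_of_mem _ (Finset.mem_filter.mpr ⟨Finset.mem_univ _, hz2⟩)
      · intro hz
        obtain ⟨n, hn, rfl⟩ := Finset.mem_image.mp hz
        exact Finset.mem_filter.mpr ⟨Finset.mem_image_of_mem _ (Finset.mem_univ _),
          (Finset.mem_filter.mp hn).2⟩
    rw [h3, Finset.card_image_of_injective _ hinj]
    rw [← Set.ncard_coe_finset]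
    congr 1
    ext n
    simp
  rw [h2] at h1
  have h4 := card_sub_box α hN
  exact h1.trans (Nat.mul_le_mul_left _ (Nat.sub_le_sub_right h4 1))

end Pool.Agent.X148.TR
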