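import Pool.Agent.X148.TR.Expo
import Pool.Agent.H301R2.SSE.Nine

set_option autoImplicit false

/-!
# Consequences for `1/π`, `e` and Euler's constant
-/

namespace Pool.Agent.X148.TR

open Module
open Pool.Agent.H301R2.SSE (QB mem_QB Lt Lt_rep Lt_mul Lt_alg Lt_log Lt_one strong_six)
open Pool.Agent.H301R2.Nine (six' pi_mem LB_Lt)
open Pool.Agent.TH379.PER

/-- linear forms, with algebraic coefficients, in integrals of rational functions of one variable
and logarithms of algebraic numbers -/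
noncomputable abbrev L : Submodule (algebraicClosure ℚ ℂ) ℂ := Forms (fun i : Fin 0 => i.elim0)

lemma L_le : L ≤ Lt := by
  have h1 := Forms_le (fun i : Fin 0 => (i.elim0 : ℂ))
  have h2 : Set.range (fun i : Fin 0 => (i.elim0 : ℂ)) = ∅ := Set.range_eq_empty _
  rw [h2, Submodule.span_empty, sup_bot_eq] at h1
  exact h1

lemma pi_Lt : (Real.pi : ℂ) ∈ Lt := LB_Lt pi_mem

lemma pi_ne : (Real.pi : ℂ) ≠ 0 := by exact_mod_cast Real.pi_ne_zero

lemma transc_pi : Transcendental ℚ (Real.pi : ℂ) := Pool.Agent.H340R2.LW.transcendental_pi_complex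

/-- `1` and a transcendental number, in terms of algebraic numbers -/
lemma pair_alg {u : ℂ} (hu : Transcendental ℚ u) (a b : ℂ) (ha : IsAlgebraic ℚ a)
    (hb : IsAlgebraic ℚ b) (h : a * 1 + b * u = 0) : a = 0 ∧ b = 0 := by
  by_cases hb0 : b = 0
  · subst hb0
    rw [mul_one, zero_mul, add_zero] at h
    exact ⟨h, rfl⟩
  · exfalso
    apply hu
    have h2 : u = -a * b⁻¹ := by
      field_simp
      linear_combination h
    rw [h2]
    exact ha.neg.mul hb.inv

/-- **The number `1/π`.** -/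
theorem inv_pi {v : ℂ} (hv : v ∈ Lt)
    (hv2 : ∀ a b : ℂ, IsAlgebraic ℚ a → IsAlgebraic ℚ b → v ≠ a + b * Real.pi)
    (h1 : 1 / (Real.pi : ℂ) ∈ Lt) (h2 : v / (Real.pi : ℂ) ∈ Lt) : False := by
  have htr : Transcendental ℚ (1 / (Real.pi : ℂ)) := by
    intro h
    have h1 := h.inv
    rw [one_div, inv_inv] at h1
    exact transc_pi h1
  refine six' 1 (1 / (Real.pi : ℂ)) 1 Real.pi v (pair_alg htr) ?_ ?_ ?_ ?_ ?_ ?_ ?_
  · intro a b c ha hb hc h
    have hc0 : c = 0 := by
      by_contra hc0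
      refine hv2 (-a * c⁻¹) (-b * c⁻¹) (ha.neg.mul hc.inv) (hb.neg.mul hc.inv) ?_
      field_simp
      linear_combination h
    subst hc0
    have h3 := pair_alg transc_pi a b ha hb (by linear_combination h)
    exact ⟨h3.1, h3.2, rfl⟩
  · rw [mul_one]; exact Lt_one
  · rw [one_mul]; exact pi_Lt
  · rwa [one_mul]
  · rwa [mul_one]
  · rw [one_div, inv_mul_cancel₀ pi_ne]; exact Lt_one
  · rwa [one_div, inv_mul_eq_div]

/-- three independent powers of a transcendental number -/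
lemma powers_alg {t : ℂ} (ht : Transcendental ℚ t) (a b c : ℂ) (ha : IsAlgebraic ℚ a)
    (hb : IsAlgebraic ℚ b) (hc : IsAlgebraic ℚ c) (h : a + b * t + c * t ^ 2 = 0) :
    a = 0 ∧ b = 0 ∧ c = 0 := by
  have h1 := pow_indep ht 3
  rw [Fintype.linearIndependent_iff] at h1
  have h2 := h1 ![⟨a, mem_QB.mpr ha⟩, ⟨b, mem_QB.mpr hb⟩, ⟨c, mem_QB.mpr hc⟩] (by
    rw [Fin.sum_univ_three]
    show a * t ^ 0 + b * t ^ 1 + c * t ^ 2 = 0
    linear_combination h)
  exact ⟨congrArg Subtype.val (h2 0), congrArg Subtype.val (h2 1), congrArg Subtype.val (h2 2)⟩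

theorem inv_pi_sq : ¬ (1 / (Real.pi : ℂ) ∈ Lt ∧ (Real.pi : ℂ) ^ 2 ∈ Lt) := by
  rintro ⟨h1, h2⟩
  refine inv_pi h2 (fun a b ha hb h => ?_) h1 ?_
  · have h3 := powers_alg transc_pi a b (-1) ha hb isAlgebraic_one.neg
      (by linear_combination -h)
    exact one_ne_zero (neg_eq_zero.mp h3.2.2)
  · rw [pow_two, mul_div_assoc, div_self pi_ne, mul_one]; exact pi_Lt

theorem inv_pi_inv_sq : ¬ (1 / (Real.pi : ℂ) ∈ Lt ∧ 1 / (Real.pi : ℂ) ^ 2 ∈ Lt) := by
  rintro ⟨h1, h2⟩
  refine inv_pi h1 (fun a b ha hb h => ?_) h1 ?_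
  · have h4 := pi_ne
    have h3 := powers_alg transc_pi (-1) a b isAlgebraic_one.neg ha hb (by
      field_simp at h
      linear_combination -h)
    exact one_ne_zero (neg_eq_zero.mp h3.1)
  · rw [div_div, ← pow_two]; exact h2

/-- the inverse, the number and its square -/
theorem inv_self_sq {t : ℂ} (ht : Transcendental ℚ t) : ¬ (t⁻¹ ∈ Lt ∧ t ∈ Lt ∧ t ^ 2 ∈ Lt) := by
  rintro ⟨h1, h2, h3⟩
  have h0 : t ≠ 0 := by
    rintro rfl
    exact ht isAlgebraic_zero
  refine six' 1 t t⁻¹ 1 t (pair_alg ht) ?_ ?_ ?_ ?_ ?_ ?_ ?_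
  · intro a b c ha hb hc h
    refine powers_alg ht a b c ha hb hc ?_
    field_simp at h
    linear_combination h
  · rwa [one_mul]
  · rw [mul_one]; exact Lt_one
  · rwa [one_mul]
  · rw [mul_inv_cancel₀ h0]; exact Lt_one
  · rwa [mul_one]
  · rwa [← pow_two]

/-- products with `π`, `1/π` -/
theorem with_pi {u : ℂ} (hu : Transcendental ℚ u) :
    ¬ (1 / (Real.pi : ℂ) ∈ Lt ∧ u ∈ Lt ∧ u * Real.pi ∈ Lt ∧ u / Real.pi ∈ Lt) := by
  rintro ⟨h1, h2, h3, h4⟩
  have h0 := pi_ne
  refine six' 1 u (1 / (Real.pi : ℂ)) 1 Real.pi (pair_alg hu) ?_ ?_ ?_ ?_ ?_ ?_ ?_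
  · intro a b c ha hb hc h
    refine powers_alg transc_pi a b c ha hb hc ?_
    field_simp at h
    linear_combination h
  · rwa [one_mul]
  · rw [mul_one]; exact Lt_one
  · rw [one_mul]; exact pi_Lt
  · rwa [mul_one_div]
  · rwa [mul_one]
  · exact h3

/-- a logarithm of an algebraic number which is not a rational multiple of `π i` -/
theorem log_not_pi {l : ℂ} (hl : IsAlgebraic ℚ (Complex.exp l))
    (hl2 : ∀ q : ℚ, l ≠ q * (Real.pi * Complex.I)) (a b : ℂ) (ha : IsAlgebraic ℚ a)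
    (hb : IsAlgebraic ℚ b) : l ≠ a + b * Real.pi := by
  intro h
  let ω : Fin 2 → ℂ := ![l, Real.pi * Complex.I]
  have hpi : (Real.pi : ℂ) * Complex.I ≠ 0 := mul_ne_zero pi_ne Complex.I_ne_zero
  have halg : ∀ i, IsAlgebraic ℚ (Complex.exp (ω i)) := by
    intro i
    fin_cases i
    · exact hl
    · change IsAlgebraic ℚ (Complex.exp (Real.pi * Complex.I))
      rw [Complex.exp_pi_mul_I]
      exact isAlgebraic_one.neg
  have hω : LinearIndependent ℚ ω := by
    rw [LinearIndependent.pair_iff]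
    intro s u hst
    have hst' : (s : ℂ) * l + (u : ℂ) * (Real.pi * Complex.I) = 0 := by
      have h2 : s • l + u • ((Real.pi : ℂ) * Complex.I) = 0 := hst
      rwa [Rat.smul_def, Rat.smul_def] at h2
    have hs : s = 0 := by
      by_contra hs
      have hs' : (s : ℂ) ≠ 0 := by exact_mod_cast hs
      apply hl2 (-u / s)
      push_cast
      field_simp
      linear_combination hst'
    subst hs
    refine ⟨rfl, ?_⟩
    rw [Rat.cast_zero, zero_mul, zero_add] at hst'
    exact_mod_cast (mul_eq_zero.mp hst').resolve_right hpi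
  obtain ⟨h1, h3⟩ := Pool.Agent.H297R2.baker_inhom ω halg hω a ha ![-1, -Complex.I * b] (by
      intro i
      fin_cases i
      · exact isAlgebraic_one.neg
      · exact Pool.Agent.H301R2.Nine.algI.neg.mul hb) (by
      rw [Fin.sum_univ_two]
      simp only [ω, Matrix.cons_val_zero, Matrix.cons_val_one]
      have : Complex.I * Complex.I = -1 := Complex.I_mul_I
      linear_combination -h - (b * Real.pi : ℂ) * this)
  have h4 := h3 0
  simp only [Matrix.cons_val_zero] at h4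
  exact one_ne_zero (neg_eq_zero.mp h4)

end Pool.Agent.X148.TR
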