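import Pool.Agent.TH379.PER.Three

set_option autoImplicit false

/-!
# Numbers that several fixed multipliers send to linear forms in periods of one variable
-/

namespace Pool.Agent.X148.TR

open Module
open Pool.Agent.H301R2.SSE (QB mem_QB Lt Lt_rep Lt_mul Lt_alg Lt_log strong_six)
open Pool.Agent.TH379.PER

/-- the space of all complex numbers `v` such that `x i * v ∈ F` for every `i` -/
def Mult {d : ℕ} (x : Fin d → ℂ) (F : Submodule (algebraicClosure ℚ ℂ) ℂ) :
    Submodule (algebraicClosure ℚ ℂ) ℂ where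
  carrier := {v | ∀ i, x i * v ∈ F}
  add_mem' := fun {u v} hu hv i => by
    rw [mul_add]; exact F.add_mem (hu i) (hv i)
  zero_mem' := fun i => by rw [mul_zero]; exact F.zero_mem
  smul_mem' := fun c v hv i => by
    rw [mul_smul_comm]; exact F.smul_mem c (hv i)

lemma mem_Mult {d : ℕ} {x : Fin d → ℂ} {F : Submodule QB ℂ} {v : ℂ} :
    v ∈ Mult x F ↔ ∀ i, x i * v ∈ F := Iff.rfl

/-- a space without `k + 1` independent elements -/
lemma rank_le_of (K : Submodule QB ℂ) (k : ℕ)
    (h : ∀ y : Fin (k + 1) → ℂ, (∀ j, y j ∈ K) → ¬ LinearIndependent QB y) :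
    Module.rank QB K ≤ k := by
  classical
  apply rank_le
  intro s hs
  by_contra hc
  have hc : k + 1 ≤ s.card := by omega
  let f : Fin (k + 1) → s := fun j => s.equivFin.symm (Fin.castLE hc j)
  have hf : Function.Injective f := by
    intro a b hab
    exact Fin.castLE_injective hc (s.equivFin.symm.injective hab)
  refine h (fun j => ((f j : K) : ℂ)) (fun j => (f j : K).2) ?_
  exact (hs.comp f hf).map' K.subtype K.ker_subtype

/-- the strong six exponentials theorem in terms of linear independence -/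
lemma six_indep {x : Fin 2 → ℂ} {y : Fin 3 → ℂ} (hx : LinearIndependent QB x)
    (hy : LinearIndependent QB y) (h : ∀ i j, x i * y j ∈ Lt) : False := by
  refine strong_six x y ?_ ?_ h
  · intro a b ha hb hab
    have h1 := Fintype.linearIndependent_iff.mp hx ![⟨a, mem_QB.mpr ha⟩, ⟨b, mem_QB.mpr hb⟩] (by
      rw [Fin.sum_univ_two]
      exact hab)
    exact ⟨congrArg Subtype.val (h1 0), congrArg Subtype.val (h1 1)⟩
  · intro c hc hsum j
    have h1 := Fintype.linearIndependent_iff.mp hy (fun j => ⟨c j, mem_QB.mpr (hc j)⟩) (by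
      rw [← hsum]
      exact Finset.sum_congr rfl (fun i _ => rfl)) j
    exact congrArg Subtype.val h1

lemma two_kernel {x : Fin 2 → ℂ} (hx : LinearIndependent QB x) :
    Module.rank QB (Mult x Lt) ≤ (2 : ℕ) := by
  apply rank_le_of
  intro y hy hli
  exact six_indep hx hli (fun i j => hy j i)

lemma three_kernel {d : ℕ} {x : Fin d → ℂ} (hd : 3 ≤ d) (hx : LinearIndependent QB x) :
    Module.rank QB (Mult x Lt) ≤ (1 : ℕ) := by
  apply rank_le_of
  intro y hy hli
  have hx3 : LinearIndependent QB (fun j : Fin 3 => x (Fin.castLE hd j)) :=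
    hx.comp _ (Fin.castLE_injective hd)
  exact six_indep (x := y) hli hx3 (fun i j => by rw [mul_comm]; exact hy i _)

/-- the bound for the kernel -/
def kk (d : ℕ) : ℕ := if d = 2 then 2 else 1

lemma kernel {d : ℕ} {x : Fin d → ℂ} (hd : 2 ≤ d) (hx : LinearIndependent QB x) :
    Module.rank QB (Mult x Lt) ≤ (kk d : ℕ) := by
  unfold kk
  split_ifs with h
  · subst h; exact two_kernel hx
  · exact three_kernel (by omega) hx

/-- **Multiplier spaces.** -/
theorem rank_Mult {d g : ℕ} (γ : Fin g → ℂ) {x : Fin d → ℂ} (hd : 2 ≤ d)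
    (hx : LinearIndependent QB x) :
    Module.rank QB (Mult x (Forms γ)) ≤ ((d * g + kk d : ℕ) : Cardinal) := by
  classical
  set M := Mult x (Forms γ) with hM
  let W : Submodule QB (ℂ ⧸ Lt) := (Submodule.span QB (Set.range γ)).map Lt.mkQ
  have : FiniteDimensional QB ↥(Submodule.span QB (Set.range γ)) :=
    FiniteDimensional.span_of_finite QB (Set.finite_range _)
  have hW : finrank QB W ≤ g := by
    have h1 : finrank QB ↥(Submodule.span QB (Set.range γ)) ≤ g := by
      have h1 := finrank_range_le_card (R := QB) γ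
      rwa [Fintype.card_fin, Set.finrank] at h1
    exact (Submodule.finrank_map_le Lt.mkQ _).trans h1
  have hFW : ∀ v ∈ Forms γ, Lt.mkQ v ∈ W := by
    intro v hv
    have h1 : v ∈ Lt ⊔ Submodule.span QB (Set.range γ) := Forms_le γ hv
    have h2 : Lt.mkQ v ∈ (Lt ⊔ Submodule.span QB (Set.range γ)).map Lt.mkQ :=
      Submodule.mem_map_of_mem h1
    rw [Submodule.map_sup, Submodule.mkQ_map_self, bot_sup_eq] at h2
    exact h2
  let φ : M →ₗ[QB] (Fin d → W) := LinearMap.pi (fun i =>
    ((Lt.mkQ ∘ₗ (LinearMap.mulLeft QB (x i))) ∘ₗ M.subtype).codRestrict W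
      (fun v => hFW _ (v.2 i)))
  have hφ : ∀ (v : M) i, ((φ v i : W) : ℂ ⧸ Lt) = Lt.mkQ (x i * (v : ℂ)) := fun v i => rfl
  have h1 := LinearMap.rank_range_add_rank_ker φ
  have h2 : Module.rank QB (LinearMap.range φ) ≤ ((d * g : ℕ) : Cardinal) := by
    refine (Submodule.rank_le _).trans ?_
    have h3 : finrank QB (Fin d → W) = d * finrank QB W := by
      rw [Module.finrank_pi_fintype, Finset.sum_const, Finset.card_univ, Fintype.card_fin,
        smul_eq_mul]
    rw [← Module.finrank_eq_rank, h3]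
    exact_mod_cast Nat.mul_le_mul_left d hW
  have h3 : Module.rank QB (LinearMap.ker φ) ≤ ((kk d : ℕ) : Cardinal) := by
    have h4 : (LinearMap.ker φ).map M.subtype ≤ Mult x Lt := by
      rintro _ ⟨v, hv, rfl⟩ i
      have h5 : φ v = 0 := hv
      have h6 := hφ v i
      rw [h5] at h6
      exact (Submodule.Quotient.mk_eq_zero Lt).mp h6.symm
    have h5 := (Submodule.equivMapOfInjective M.subtype M.injective_subtype
      (LinearMap.ker φ)).rank_eq
    rw [h5]
    exact (Submodule.rank_mono h4).trans (kernel hd hx)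
  rw [← h1]
  push_cast at h2 h3 ⊢
  exact add_le_add h2 h3

theorem finite_Mult {d g : ℕ} (γ : Fin g → ℂ) {x : Fin d → ℂ} (hd : 2 ≤ d)
    (hx : LinearIndependent QB x) : FiniteDimensional QB (Mult x (Forms γ)) := by
  have h1 := rank_Mult γ hd hx
  exact Module.rank_lt_aleph0_iff.mp (h1.trans_lt (Cardinal.natCast_lt_aleph0))

theorem finrank_Mult {d g : ℕ} (γ : Fin g → ℂ) {x : Fin d → ℂ} (hd : 2 ≤ d)
    (hx : LinearIndependent QB x) : finrank QB (Mult x (Forms γ)) ≤ d * g + kk d := by
  have := finite_Mult γ hd hx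
  have h1 := rank_Mult γ hd hx
  rw [← Module.finrank_eq_rank] at h1
  exact_mod_cast h1

/-- `1` and a transcendental number -/
lemma pair_indep {u : ℂ} (hu : Transcendental ℚ u) : LinearIndependent QB ![1, u] := by
  rw [LinearIndependent.pair_iff]
  intro a b hab
  have h1 : (a : ℂ) + (b : ℂ) * u = 0 := by
    have h2 : (a : ℂ) * 1 + (b : ℂ) * u = 0 := hab
    rwa [mul_one] at h2
  by_cases hb : b = 0
  · subst hb
    refine ⟨?_, rfl⟩
    apply Subtype.ext
    simpa using h1
  · exfalso
    have hb' : (b : ℂ) ≠ 0 := fun h => hb (Subtype.ext h)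
    apply hu
    have h2 : u = -(a : ℂ) * ((b : ℂ))⁻¹ := by
      field_simp
      linear_combination h1
    rw [h2]
    exact ((mem_QB.mp a.2).neg).mul (mem_QB.mp b.2).inv

end Pool.Agent.X148.TR
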