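import Pool.Agent.X148.TR.Abs
import Pool.Agent.W254.PA.LogP
import Pool.Agent.TH379.PER.E2

set_option autoImplicit false

/-!
# The `p`-adic instance
-/

namespace Pool.Agent.X148.TR

open Module
open Pool.Agent.W254.PA (Hyp LtE logs hyp_padic)

section generic

variable {E : Type*} [Field E] [CharZero E]

lemma transc_up {u : E} (hu : Transcendental ℚ u) :
    Transcendental (algebraicClosure ℚ E) u := by
  intro h
  have : Algebra.IsAlgebraic ℚ (algebraicClosure ℚ E) := algebraicClosure.isAlgebraic ℚ E
  exact hu (h.restrictScalars ℚ)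

variable {k : Type*} [Field k] [Algebra k E]

lemma pairE_indep {u : E} (hu : Transcendental k u) : LinearIndependent k ![1, u] := by
  have h := powE_indep hu 2
  have e : (fun i : Fin 2 => u ^ (i : ℕ)) = ![1, u] := by
    funext i
    fin_cases i
    · exact pow_zero u
    · exact pow_one u
  rwa [e] at h

/-- the number of good exponents is at most the dimension of the space of polynomials -/
lemma ncard_pow_le {F : Submodule k E} {v u : E} (D : ℕ) :
    Set.ncard {n : ℕ | n ≤ D ∧ v * u ^ n ∈ F} ≤ finrank k (PolyIn F v u D) := by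
  classical
  have hfin : FiniteDimensional k (PolyIn F v u D) :=
    Submodule.finiteDimensional_of_le inf_le_right
  have hA : {n : ℕ | n ≤ D ∧ v * u ^ n ∈ F}.Finite :=
    (Set.finite_Iic D).subset (fun n hn => hn.1)
  have hmem : ∀ n : {n : ℕ | n ≤ D ∧ v * u ^ n ∈ F},
      (Polynomial.X ^ (n : ℕ) : Polynomial k) ∈ PolyIn F v u D := by
    intro n
    rw [mem_PolyIn, map_pow, Polynomial.aeval_X, Polynomial.degree_X_pow]
    exact ⟨n.2.2, by exact_mod_cast Nat.lt_succ_of_le n.2.1⟩
  have hli : LinearIndependent k (fun n : {n : ℕ | n ≤ D ∧ v * u ^ n ∈ F} =>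
      (⟨Polynomial.X ^ (n : ℕ), hmem n⟩ : PolyIn F v u D)) := by
    apply LinearIndependent.of_comp (PolyIn F v u D).subtype
    have h1 : LinearIndependent k (fun n : ℕ => (Polynomial.X ^ n : Polynomial k)) := by
      have h2 := (Polynomial.basisMonomials k).linearIndependent
      have h3 : (fun n : ℕ => (Polynomial.X ^ n : Polynomial k)) =
          ⇑(Polynomial.basisMonomials k) := by
        funext n
        rw [Polynomial.coe_basisMonomials]
        exact Polynomial.X_pow_eq_monomial n
      rw [h3]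
      exact h2
    exact h1.comp _ Subtype.val_injective
  have : Fintype {n : ℕ | n ≤ D ∧ v * u ^ n ∈ F} := hA.fintype
  have h3 := hli.fintype_card_le_finrank
  rwa [← Nat.card_eq_fintype_card, Nat.card_coe_set_eq] at h3

theorem polyE_bound {V : Submodule k E} (hV : Hyp V) (Γ : Submodule k E) [FiniteDimensional k Γ]
    {v u : E} (hv : v ≠ 0) (hu : Transcendental k u) (D : ℕ) :
    (finrank k (PolyIn (V ⊔ Γ) v u D) : ℝ) ≤ 2 * Real.sqrt D + 1 + finrank k Γ :=
  Pool.Agent.TH379.PER.opt _ D _ (fun d hd => polyE_ineq hV Γ hv hu D d hd)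

/-- for every `u` which is not in `k` the space of the `v ∈ V` with `u v ∈ V` has dimension at
most two -/
def Two (V : Submodule k E) : Prop :=
  ∀ u : E, LinearIndependent k ![1, u] → Module.rank k (MultE ![1, u] V) ≤ ((2 : ℕ) : Cardinal)

lemma Two.of_hyp {V : Submodule k E} (hV : Hyp V) : Two V := by
  intro u hu
  have h := kernelE hV le_rfl hu
  rwa [if_pos rfl] at h

/-- two independent pairs in a two dimensional space -/
lemma same_ratio {V : Submodule k E} (hV : Two V) {u : E} (hu : LinearIndependent k ![1, u])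
    {x y : Fin 2 → E} (hx : ∀ i, x i ∈ V) (hux : ∀ i, u * x i ∈ V) (hy : ∀ i, y i ∈ V)
    (huy : ∀ i, u * y i ∈ V) (hxi : LinearIndependent k x) (hyi : LinearIndependent k y) :
    ∃ A : Matrix (Fin 2) (Fin 2) k, A.det ≠ 0 ∧ ∀ i, y i = ∑ j, A i j • x j := by
  classical
  have hr := hV u hu
  have hfin : FiniteDimensional k (MultE ![1, u] V) :=
    Module.rank_lt_aleph0_iff.mp (hr.trans_lt Cardinal.natCast_lt_aleph0)
  have hrk : finrank k (MultE ![1, u] V) ≤ 2 := by
    rw [← Module.finrank_eq_rank] at hr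
    exact_mod_cast hr
  have key : ∀ z : E, z ∈ V → u * z ∈ V → z ∈ MultE ![1, u] V := by
    intro z h1 h2 i
    fin_cases i
    · show 1 * z ∈ V
      rwa [one_mul]
    · exact h2
  have hspan : ∀ {x : Fin 2 → E}, (∀ i, x i ∈ V) → (∀ i, u * x i ∈ V) →
      LinearIndependent k x → Submodule.span k (Set.range x) = MultE ![1, u] V := by
    intro x hx hux hxi
    apply Submodule.eq_of_le_of_finrank_le
    · refine Submodule.span_le.mpr ?_
      rintro _ ⟨i, rfl⟩
      exact key _ (hx i) (hux i)
    · rw [finrank_span_eq_card hxi, Fintype.card_fin]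
      exact hrk
  have hxs := hspan hx hux hxi
  have hys := hspan hy huy hyi
  have h1 : ∀ i, ∃ c : Fin 2 → k, ∑ j, c j • x j = y i := by
    intro i
    have h2 : y i ∈ Submodule.span k (Set.range x) := by
      rw [hxs]; exact key _ (hy i) (huy i)
    exact (Submodule.mem_span_range_iff_exists_fun k).mp h2
  choose A hA using h1
  refine ⟨A, ?_, fun i => (hA i).symm⟩
  intro hdet
  obtain ⟨c, hc0, hc⟩ := Matrix.exists_vecMul_eq_zero_iff.mpr hdet
  apply hc0
  have h3 : ∑ i, c i • y i = 0 := by
    have h4 : ∀ i, y i = ∑ j, A i j • x j := fun i => (hA i).symm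
    calc ∑ i, c i • y i = ∑ i, c i • ∑ j, A i j • x j :=
          Finset.sum_congr rfl (fun i _ => by rw [h4 i])
      _ = ∑ j, (∑ i, c i * A i j) • x j := by
          simp only [Finset.smul_sum, smul_smul, Finset.sum_smul]
          rw [Finset.sum_comm]
      _ = 0 := by
          apply Finset.sum_eq_zero
          intro j _
          have h5 := congrFun hc j
          have h6 : ∑ i, c i * A i j = 0 := h5
          rw [h6, zero_smul]
  have h7 := Fintype.linearIndependent_iff.mp hyi c h3
  funext i
  exact h7 i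

/-- singular `2 × 2` matrices with entries in `V` and independent rows and columns -/
def Bad (V : Submodule k E) (M : Matrix (Fin 2) (Fin 2) E) : Prop :=
  (∀ i j, M i j ∈ V) ∧
  LinearIndependent k (fun i : Fin 2 => fun j : Fin 2 => M i j) ∧
  LinearIndependent k (fun j : Fin 2 => fun i : Fin 2 => M i j) ∧
  M.det = 0

lemma Bad.ratio {V : Submodule k E} {M : Matrix (Fin 2) (Fin 2) E} (h : Bad V M) :
    M 0 0 ≠ 0 ∧ (∀ i, M i 1 = (M 0 1 / M 0 0) * M i 0) ∧
      LinearIndependent k ![1, M 0 1 / M 0 0] := by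
  obtain ⟨-, hr, hc, hdet⟩ := h
  rw [Matrix.det_fin_two] at hdet
  have h00 : M 0 0 ≠ 0 := by
    intro h0
    rw [h0, zero_mul, zero_sub, neg_eq_zero, mul_eq_zero] at hdet
    rcases hdet with h1 | h1
    · apply hr.ne_zero 0
      funext j
      fin_cases j
      · exact h0
      · exact h1
    · apply hc.ne_zero 0
      funext i
      fin_cases i
      · exact h0
      · exact h1
  have h1 : ∀ i, M i 1 = (M 0 1 / M 0 0) * M i 0 := by
    intro i
    fin_cases i
    · show M 0 1 = M 0 1 / M 0 0 * M 0 0
      field_simp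
    · show M 1 1 = M 0 1 / M 0 0 * M 1 0
      field_simp
      linear_combination hdet
  refine ⟨h00, h1, ?_⟩
  rw [LinearIndependent.pair_iff]
  intro s t hst
  apply LinearIndependent.pair_iff.mp
    (show LinearIndependent k ![(fun i : Fin 2 => M i 0), (fun i : Fin 2 => M i 1)] by
      have e : (fun j : Fin 2 => fun i : Fin 2 => M i j) =
          ![(fun i : Fin 2 => M i 0), (fun i : Fin 2 => M i 1)] := by
        funext j
        fin_cases j <;> rfl
      rw [← e]
      exact hc) s t
  funext i
  show s • M i 0 + t • M i 1 = 0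
  rw [h1 i, ← mul_one (M i 0), ← mul_assoc, mul_one, Algebra.smul_def, Algebra.smul_def]
  rw [Algebra.smul_def, Algebra.smul_def, mul_one] at hst
  linear_combination (M i 0) * hst

/-- independence of a column when the other one is a multiple -/
lemma col_indep {x : Fin 2 → E} {c d : E} {M : Matrix (Fin 2) (Fin 2) E}
    (h0 : ∀ i, M i 0 = c * x i) (h1 : ∀ i, M i 1 = d * x i)
    (hr : LinearIndependent k (fun i : Fin 2 => fun j : Fin 2 => M i j)) :
    LinearIndependent k x := by
  rw [Fintype.linearIndependent_iff] at hr ⊢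
  intro g hg
  apply hr g
  funext j
  have h2 : ∀ (e : E), ∑ i, g i • (e * x i) = 0 := by
    intro e
    have h3 : ∑ i, g i • (e * x i) = e * ∑ i, g i • x i := by
      rw [Finset.mul_sum]
      exact Finset.sum_congr rfl (fun i _ => (mul_smul_comm _ _ _).symm)
    rw [h3, hg, mul_zero]
  rw [Finset.sum_apply]
  fin_cases j
  · show ∑ i, g i • M i 0 = 0
    simp only [h0]
    exact h2 c
  · show ∑ i, g i • M i 1 = 0
    simp only [h1]
    exact h2 d

/-- **One orbit for each ratio.** -/
theorem one_orbit {V : Submodule k E} (hV : Two V) {M M' : Matrix (Fin 2) (Fin 2) E}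
    (hM : Bad V M) (hM' : Bad V M') (a b c d : k) (hdet : a * d - b * c ≠ 0)
    (hratio : (M' 0 1 / M' 0 0) * (algebraMap k E c + algebraMap k E d * (M 0 1 / M 0 0)) =
      algebraMap k E a + algebraMap k E b * (M 0 1 / M 0 0)) :
    ∃ A B : Matrix (Fin 2) (Fin 2) k, A.det ≠ 0 ∧ B.det ≠ 0 ∧
      M' = A.map (algebraMap k E) * M * B.map (algebraMap k E) := by
  classical
  obtain ⟨h00, h1, hu⟩ := hM.ratio
  obtain ⟨h00', h1', -⟩ := hM'.ratio
  set u := M 0 1 / M 0 0 with hudef
  set u' := M' 0 1 / M' 0 0 with hudef'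
  set a' := algebraMap k E a
  set b' := algebraMap k E b
  set c' := algebraMap k E c
  set d' := algebraMap k E d
  have hD : a' * d' - b' * c' ≠ 0 := by
    have h2 : algebraMap k E (a * d - b * c) ≠ 0 := fun h =>
      hdet ((map_eq_zero (algebraMap k E)).mp h)
    rwa [map_sub, map_mul, map_mul] at h2
  have hw : c' + d' * u ≠ 0 := by
    intro h0
    rw [LinearIndependent.pair_iff] at hu
    have h2 := hu c d (by
      rw [Algebra.smul_def, Algebra.smul_def, mul_one]
      exact h0)
    apply hdet
    rw [h2.1, h2.2]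
    ring
  -- the vector `x`
  let x : Fin 2 → E := fun i => M' i 0 / (c' + d' * u)
  have hx0 : ∀ i, M' i 0 = (c' + d' * u) * x i := by
    intro i
    show M' i 0 = (c' + d' * u) * (M' i 0 / (c' + d' * u))
    field_simp
  have hx1 : ∀ i, M' i 1 = (a' + b' * u) * x i := by
    intro i
    rw [h1' i, hx0 i, ← hratio]
    ring
  have hxV : ∀ i, x i ∈ V := by
    intro i
    have h2 := V.sub_mem (V.smul_mem b (hM'.1 i 0)) (V.smul_mem d (hM'.1 i 1))
    have h3 := V.smul_mem (b * c - a * d)⁻¹ h2
    have h4 : (b * c - a * d)⁻¹ • (b • M' i 0 - d • M' i 1) = x i := by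
      rw [Algebra.smul_def, Algebra.smul_def, Algebra.smul_def, map_inv₀, map_sub, map_mul,
        map_mul, hx0 i, hx1 i]
      have h5 : b' * c' - a' * d' ≠ 0 := by
        intro h6; apply hD; linear_combination -h6
      show (b' * c' - a' * d')⁻¹ * (b' * ((c' + d' * u) * x i) - d' * ((a' + b' * u) * x i)) = x i
      field_simp
      ring
    rwa [h4] at h3
  have hxuV : ∀ i, u * x i ∈ V := by
    intro i
    have h2 := V.sub_mem (V.smul_mem c (hM'.1 i 1)) (V.smul_mem a (hM'.1 i 0))
    have h3 := V.smul_mem (b * c - a * d)⁻¹ h2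
    have h4 : (b * c - a * d)⁻¹ • (c • M' i 1 - a • M' i 0) = u * x i := by
      rw [Algebra.smul_def, Algebra.smul_def, Algebra.smul_def, map_inv₀, map_sub, map_mul,
        map_mul, hx0 i, hx1 i]
      have h5 : b' * c' - a' * d' ≠ 0 := by
        intro h6; apply hD; linear_combination -h6
      show (b' * c' - a' * d')⁻¹ * (c' * ((a' + b' * u) * x i) - a' * ((c' + d' * u) * x i)) =
        u * x i
      field_simp
      ring
    rwa [h4] at h3
  have hxi : LinearIndependent k x := col_indep hx0 hx1 hM'.2.1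
  have hyi : LinearIndependent k (fun i : Fin 2 => M i 0) :=
    col_indep (x := fun i : Fin 2 => M i 0) (c := 1) (d := u)
      (fun i => by rw [one_mul]) (fun i => h1 i) hM.2.1
  obtain ⟨A, hA, hAx⟩ := same_ratio hV hu (x := fun i : Fin 2 => M i 0) (y := x)
    (fun i => hM.1 i 0) (fun i => by rw [← h1 i]; exact hM.1 i 1) hxV hxuV hyi hxi
  refine ⟨A, !![c, a; d, b], hA, ?_, ?_⟩
  · rw [Matrix.det_fin_two_of]
    intro h; apply hdet; linear_combination -h
  · have hAx' : ∀ i, x i = algebraMap k E (A i 0) * M 0 0 + algebraMap k E (A i 1) * M 1 0 := by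
      intro i
      rw [hAx i, Fin.sum_univ_two, Algebra.smul_def, Algebra.smul_def]
    ext i j
    rw [Matrix.mul_apply, Fin.sum_univ_two, Matrix.mul_apply, Matrix.mul_apply,
      Fin.sum_univ_two, Fin.sum_univ_two]
    simp only [Matrix.map_apply]
    fin_cases j
    · show M' i 0 = (algebraMap k E (A i 0) * M 0 0 + algebraMap k E (A i 1) * M 1 0) * c' +
        (algebraMap k E (A i 0) * M 0 1 + algebraMap k E (A i 1) * M 1 1) * d'
      rw [hx0 i, hAx' i, h1 0, h1 1]
      ring
    · show M' i 1 = (algebraMap k E (A i 0) * M 0 0 + algebraMap k E (A i 1) * M 1 0) * a' +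
        (algebraMap k E (A i 0) * M 0 1 + algebraMap k E (A i 1) * M 1 1) * b'
      rw [hx1 i, hAx' i, h1 0, h1 1]
      ring

end generic

end Pool.Agent.X148.TR
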