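import Pool.Agent.X148.TR.InvPi

set_option autoImplicit false

/-!
# Powers whose exponents are transcendental linear forms in logarithms
-/

namespace Pool.Agent.X148.TR

open Module
open Pool.Agent.H301R2.SSE (QB mem_QB Lt LB Lt_rep Lt_mul Lt_alg Lt_log Lt_one LB_log LB_mul LB_alg
  strong_six)
open Pool.Agent.H301R2.Nine (six' pi_mem LB_Lt toC ofC)
open Pool.Agent.TH379.PER

/-- Baker's theorem for two logarithms and `1` -/
lemma baker_two {l m : ℂ} (hl : IsAlgebraic ℚ (Complex.exp l)) (hm : IsAlgebraic ℚ (Complex.exp m))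
    (hli : LinearIndependent ℚ ![l, m]) (a b c : ℂ) (ha : IsAlgebraic ℚ a) (hb : IsAlgebraic ℚ b)
    (hc : IsAlgebraic ℚ c) (h : a * 1 + b * l + c * m = 0) : a = 0 ∧ b = 0 ∧ c = 0 := by
  obtain ⟨h1, h3⟩ := Pool.Agent.H297R2.baker_inhom ![l, m] (by
      intro i
      fin_cases i
      · exact hl
      · exact hm) hli a ha ![b, c] (by
      intro i
      fin_cases i
      · exact hb
      · exact hc) (by
      rw [Fin.sum_univ_two]
      simp only [Matrix.cons_val_zero, Matrix.cons_val_one]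
      linear_combination h)
  exact ⟨h1, h3 0, h3 1⟩

/-- two logarithms and a transcendental multiplier in `Lt` -/
theorem two_logs {u l m : ℂ} (hu : Transcendental ℚ u) (huL : u ∈ Lt)
    (hl : IsAlgebraic ℚ (Complex.exp l)) (hm : IsAlgebraic ℚ (Complex.exp m))
    (hul : u * l ∈ Lt) (hum : u * m ∈ Lt) : ¬ LinearIndependent ℚ ![l, m] := by
  intro hli
  refine six' 1 u 1 l m (pair_alg hu) (baker_two hl hm hli) ?_ ?_ ?_ ?_ hul hum
  · rw [mul_one]; exact Lt_one
  · rw [one_mul]; exact Lt_log hl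
  · rw [one_mul]; exact Lt_log hm
  · rwa [mul_one]

/-- some power of `a` with exponent an algebraic multiple of `u` is algebraic -/
def Good (u a : ℝ) : Prop :=
  ∃ β : ℝ, β ≠ 0 ∧ IsAlgebraic ℚ β ∧ IsAlgebraic ℚ (a ^ (β * u))

lemma Good.mem {u a : ℝ} (ha : 0 < a) (h : Good u a) : (u : ℂ) * (Real.log a : ℂ) ∈ Lt := by
  obtain ⟨β, hβ, hβa, h⟩ := h
  have h1 : IsAlgebraic ℚ (Complex.exp (((Real.log a * (β * u) : ℝ)) : ℂ)) := by
    rw [← Complex.ofReal_exp, ← Real.rpow_def_of_pos ha]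
    exact toC h
  have h2 := Lt_mul (toC hβa).inv (Lt_log h1)
  have h3 : (β : ℂ)⁻¹ * ((Real.log a * (β * u) : ℝ) : ℂ) = (u : ℂ) * (Real.log a : ℂ) := by
    have : (β : ℂ) ≠ 0 := by exact_mod_cast hβ
    push_cast
    field_simp
  rwa [h3] at h2

lemma Good.mem_LB {u a : ℝ} (ha : 0 < a) (h : Good u a) : (u : ℂ) * (Real.log a : ℂ) ∈ LB := by
  obtain ⟨β, hβ, hβa, h⟩ := h
  have h1 : IsAlgebraic ℚ (Complex.exp (((Real.log a * (β * u) : ℝ)) : ℂ)) := by
    rw [← Complex.ofReal_exp, ← Real.rpow_def_of_pos ha]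
    exact toC h
  have h2 := LB_mul (toC hβa).inv (LB_log h1)
  have h3 : (β : ℂ)⁻¹ * ((Real.log a * (β * u) : ℝ) : ℂ) = (u : ℂ) * (Real.log a : ℂ) := by
    have : (β : ℂ) ≠ 0 := by exact_mod_cast hβ
    push_cast
    field_simp
  rwa [h3] at h2

lemma exp_log_sub {a b : ℝ} (ha : 0 < a) (hb : 0 < b) (haa : IsAlgebraic ℚ a)
    (hba : IsAlgebraic ℚ b) : IsAlgebraic ℚ (Complex.exp ((Real.log (a / b) : ℝ) : ℂ)) := by
  rw [← Complex.ofReal_exp, Real.exp_log (div_pos ha hb), div_eq_mul_inv]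
  exact toC (haa.mul hba.inv)

lemma real_indep {a b : ℝ} (h : LinearIndependent ℚ ![a, b]) :
    LinearIndependent ℚ ![(a : ℂ), (b : ℂ)] := by
  rw [LinearIndependent.pair_iff] at h ⊢
  intro s t hst
  apply h s t
  rw [Rat.smul_def, Rat.smul_def] at hst ⊢
  exact_mod_cast hst

/-- **Four bases.** -/
theorem four_bases {u t : ℝ} (hu : Transcendental ℚ (u : ℂ)) (huL : (u : ℂ) ∈ Lt) (ht : 0 < t)
    {a b c d : ℝ} (ha : 0 < a) (hb : 0 < b) (hc : 0 < c) (hd : 0 < d) (haa : IsAlgebraic ℚ a)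
    (hba : IsAlgebraic ℚ b) (hca : IsAlgebraic ℚ c) (hda : IsAlgebraic ℚ d)
    (h1 : Good u (a * t)) (h2 : Good u (b * t)) (h3 : Good u (c * t)) (h4 : Good u (d * t)) :
    ¬ LinearIndependent ℚ ![Real.log (a / b), Real.log (c / d)] := by
  intro hli
  have key : ∀ {a b : ℝ}, 0 < a → 0 < b → Good u (a * t) → Good u (b * t) →
      (u : ℂ) * ((Real.log (a / b) : ℝ) : ℂ) ∈ Lt := by
    intro a b ha hb h1 h2
    have h5 := Submodule.sub_mem _ (h1.mem (mul_pos ha ht)) (h2.mem (mul_pos hb ht))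
    have h6 : (u : ℂ) * (Real.log (a * t) : ℂ) - (u : ℂ) * (Real.log (b * t) : ℂ) =
        (u : ℂ) * ((Real.log (a / b) : ℝ) : ℂ) := by
      rw [Real.log_mul ha.ne' ht.ne', Real.log_mul hb.ne' ht.ne', Real.log_div ha.ne' hb.ne']
      push_cast
      ring
    rwa [h6] at h5
  exact two_logs hu huL (exp_log_sub ha hb haa hba) (exp_log_sub hc hd hca hda)
    (key ha hb h1 h2) (key hc hd h3 h4) (real_indep hli)

lemma nat_alg (n : ℕ) : IsAlgebraic ℚ (n : ℝ) := isAlgebraic_natCast n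

/-- integers: a linear relation between logarithms of quotients and valuations -/
lemma val_rel {n m k l : ℕ} (hn : 0 < n) (hm : 0 < m) (hk : 0 < k) (hl : 0 < l) (p : ℕ)
    [Fact p.Prime] {a b : ℤ}
    (h : a • Real.log ((n : ℝ) / m) + b • Real.log ((k : ℝ) / l) = 0) :
    a * ((padicValNat p n : ℤ) - padicValNat p m) +
      b * ((padicValNat p k : ℤ) - padicValNat p l) = 0 := by
  have hn' : (n : ℚ) ≠ 0 := by exact_mod_cast hn.ne'
  have hm' : (m : ℚ) ≠ 0 := by exact_mod_cast hm.ne'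
  have hk' : (k : ℚ) ≠ 0 := by exact_mod_cast hk.ne'
  have hl' : (l : ℚ) ≠ 0 := by exact_mod_cast hl.ne'
  have h1 : (((n : ℚ) / m) ^ a * ((k : ℚ) / l) ^ b) = 1 := by
    have h2 : (((((n : ℚ) / m) ^ a * ((k : ℚ) / l) ^ b) : ℚ) : ℝ) = 1 := by
      push_cast
      have hA : (0 : ℝ) < (n : ℝ) / m := by positivity
      have hB : (0 : ℝ) < (k : ℝ) / l := by positivity
      have hAB : (0 : ℝ) < ((n : ℝ) / m) ^ a * ((k : ℝ) / l) ^ b :=
        mul_pos (zpow_pos hA a) (zpow_pos hB b)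
      apply Real.eq_one_of_pos_of_log_eq_zero hAB
      rw [Real.log_mul (zpow_pos hA a).ne' (zpow_pos hB b).ne', Real.log_zpow, Real.log_zpow]
      rw [zsmul_eq_mul, zsmul_eq_mul] at h
      exact h
    exact_mod_cast h2
  have h2 := congrArg (padicValRat p) h1
  rw [padicValRat.one, padicValRat.mul (zpow_ne_zero _ (div_ne_zero hn' hm'))
    (zpow_ne_zero _ (div_ne_zero hk' hl')), padicValRat.zpow,
    padicValRat.zpow, padicValRat.div hn' hm', padicValRat.div hk' hl',
    padicValRat.of_nat, padicValRat.of_nat, padicValRat.of_nat, padicValRat.of_nat] at h2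
  exact h2

/-- **Counting integers.** -/
theorem count_good {u t : ℝ} (hu : Transcendental ℚ (u : ℂ)) (huL : (u : ℂ) ∈ Lt) (ht : 0 < t)
    (N : ℕ) : {n : ℕ | 1 ≤ n ∧ n ≤ N ∧ Good u (n * t)}.ncard ≤ Nat.log 2 N + 1 := by
  classical
  set A := {n : ℕ | 1 ≤ n ∧ n ≤ N ∧ Good u (n * t)} with hA
  have hAfin : A.Finite := (Set.finite_Iic N).subset (fun n hn => hn.2.1)
  by_cases hsub : A.Subsingleton
  · have h1 := (Set.ncard_le_one hAfin).mpr (fun a ha b hb => hsub ha hb)
    omega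
  · rw [Set.not_subsingleton_iff] at hsub
    obtain ⟨n0, hn0, n1, hn1, hne⟩ := hsub
    have hp : ∃ p : ℕ, p.Prime ∧ padicValNat p n0 ≠ padicValNat p n1 := by
      by_contra hcon
      push Not at hcon
      exact hne (Nat.eq_of_factorization_eq (by have := hn0.1; omega) (by have := hn1.1; omega)
        (fun p => by
          by_cases hp : p.Prime
          · rw [Nat.factorization_def _ hp, Nat.factorization_def _ hp]
            exact hcon p hp
          · rw [Nat.factorization_eq_zero_of_not_prime _ hp,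
              Nat.factorization_eq_zero_of_not_prime _ hp]))
    obtain ⟨p, hp, hpne⟩ := hp
    haveI : Fact p.Prime := ⟨hp⟩
    have hinj : Set.InjOn (padicValNat p) A := by
      intro n hn m hm hnm
      by_contra hnm'
      have hpos : ∀ {n : ℕ}, n ∈ A → (0 : ℝ) < n := fun hn => by
        exact_mod_cast (Nat.lt_of_lt_of_le Nat.zero_lt_one hn.1)
      have h1 := four_bases hu huL ht (hpos hn) (hpos hm) (hpos hn1) (hpos hn0) (nat_alg _)
        (nat_alg _) (nat_alg _) (nat_alg _) hn.2.2 hm.2.2 hn1.2.2 hn0.2.2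
      apply h1
      rw [← LinearIndependent.iff_fractionRing ℤ ℚ, LinearIndependent.pair_iff]
      intro a b hab
      have h2 := val_rel (p := p) hn.1 hm.1 hn1.1 hn0.1 hab
      rw [hnm, sub_self, mul_zero, zero_add] at h2
      have hb : b = 0 := by
        rcases mul_eq_zero.mp h2 with h | h
        · exact h
        · exfalso
          apply hpne
          have : (padicValNat p n1 : ℤ) = padicValNat p n0 := by linarith
          exact_mod_cast this.symm
      subst hb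
      refine ⟨?_, rfl⟩
      rw [zero_smul, add_zero, zsmul_eq_mul] at hab
      rcases mul_eq_zero.mp hab with h | h
      · exact_mod_cast h
      · exfalso
        have h3 : (0 : ℝ) < (n : ℝ) / m := div_pos (hpos hn) (hpos hm)
        have h4 := Real.eq_one_of_pos_of_log_eq_zero h3 h
        rw [div_eq_one_iff_eq (hpos hm).ne'] at h4
        exact hnm' (by exact_mod_cast h4)
    have hmaps : Set.MapsTo (padicValNat p) A (Finset.range (Nat.log 2 N + 1) : Set ℕ) := by
      intro n hn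
      rw [Finset.coe_range, Set.mem_Iio, Nat.lt_succ_iff]
      have h1 : p ^ padicValNat p n ∣ n := pow_padicValNat_dvd
      have h2 : p ^ padicValNat p n ≤ n := Nat.le_of_dvd hn.1 h1
      have h3 : 2 ^ padicValNat p n ≤ N :=
        ((Nat.pow_le_pow_left hp.two_le _).trans h2).trans hn.2.1
      exact Nat.le_log_of_pow_le Nat.one_lt_two h3
    have h1 := Set.ncard_le_ncard_of_injOn (padicValNat p) hmaps hinj
      (Finset.finite_toSet _)
    rwa [Set.ncard_coe_finset, Finset.card_range] at h1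

/-- independence of `u ^ j z`, `u ^ k z` and `1` when `u ^ j z`, `u ^ k z` are combinations of
logarithms -/
lemma lb_pair {u z : ℂ} (hu : Transcendental ℚ u) (hz : z ≠ 0) {j k : ℕ} (hjk : j ≠ k)
    (hj : u ^ j * z ∈ LB) (hk : u ^ k * z ∈ LB) (a b c : ℂ) (ha : IsAlgebraic ℚ a)
    (hb : IsAlgebraic ℚ b) (hc : IsAlgebraic ℚ c)
    (h : a * 1 + b * (u ^ j * z) + c * (u ^ k * z) = 0) : a = 0 ∧ b = 0 ∧ c = 0 := by
  have h1 : b * (u ^ j * z) + c * (u ^ k * z) ∈ LB :=
    Submodule.add_mem _ (LB_mul hb hj) (LB_mul hc hk)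
  have h2 : IsAlgebraic ℚ (b * (u ^ j * z) + c * (u ^ k * z)) := by
    have h3 : b * (u ^ j * z) + c * (u ^ k * z) = -a := by linear_combination h
    rw [h3]; exact ha.neg
  have h3 := LB_alg h1 h2
  have h4 : (b * u ^ j + c * u ^ k) * z = 0 := by linear_combination h3
  have h5 := (mul_eq_zero.mp h4).resolve_right hz
  have h6 := pow_indep hu (max j k + 1)
  rw [Fintype.linearIndependent_iff] at h6
  have h7 := h6 (fun i => (if (i : ℕ) = j then ⟨b, mem_QB.mpr hb⟩ else 0) +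
    (if (i : ℕ) = k then ⟨c, mem_QB.mpr hc⟩ else 0)) (by
      simp only [add_smul, ite_smul, zero_smul, Finset.sum_add_distrib]
      rw [Finset.sum_eq_single (⟨j, by omega⟩ : Fin (max j k + 1)),
        Finset.sum_eq_single (⟨k, by omega⟩ : Fin (max j k + 1))]
      · rw [if_pos rfl, if_pos rfl]
        exact h5
      · intro i _ hi
        exact if_neg (fun h => hi (Fin.ext h))
      · intro h; exact absurd (Finset.mem_univ _) h
      · intro i _ hi
        exact if_neg (fun h => hi (Fin.ext h))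
      · intro h; exact absurd (Finset.mem_univ _) h)
  have h8 := h7 ⟨j, by omega⟩
  have h9 := h7 ⟨k, by omega⟩
  rw [if_pos rfl, if_neg hjk, add_zero] at h8
  rw [if_neg (Ne.symm hjk), if_pos rfl, zero_add] at h9
  refine ⟨?_, congrArg Subtype.val h8, congrArg Subtype.val h9⟩
  have h10 : b = 0 := congrArg Subtype.val h8
  have h11 : c = 0 := congrArg Subtype.val h9
  rw [h10, h11] at h
  linear_combination h

/-- three different powers -/
lemma three_powers {u z : ℂ} (hu : Transcendental ℚ u) (hz : z ≠ 0) {i j k : ℕ} (hij : i ≠ j)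
    (hik : i ≠ k) (hjk : j ≠ k) (a b c : ℂ) (ha : IsAlgebraic ℚ a)
    (hb : IsAlgebraic ℚ b) (hc : IsAlgebraic ℚ c)
    (h : a * (u ^ i * z) + b * (u ^ j * z) + c * (u ^ k * z) = 0) : a = 0 ∧ b = 0 ∧ c = 0 := by
  have h4 : (a * u ^ i + b * u ^ j + c * u ^ k) * z = 0 := by linear_combination h
  have h5 := (mul_eq_zero.mp h4).resolve_right hz
  have h6 := pow_indep hu (max i (max j k) + 1)
  rw [Fintype.linearIndependent_iff] at h6
  have h7 := h6 (fun l => (if (l : ℕ) = i then ⟨a, mem_QB.mpr ha⟩ else 0) +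
    (if (l : ℕ) = j then ⟨b, mem_QB.mpr hb⟩ else 0) +
    (if (l : ℕ) = k then ⟨c, mem_QB.mpr hc⟩ else 0)) (by
      simp only [add_smul, ite_smul, zero_smul, Finset.sum_add_distrib]
      rw [Finset.sum_eq_single (⟨i, by omega⟩ : Fin (max i (max j k) + 1)),
        Finset.sum_eq_single (⟨j, by omega⟩ : Fin (max i (max j k) + 1)),
        Finset.sum_eq_single (⟨k, by omega⟩ : Fin (max i (max j k) + 1))]
      · rw [if_pos rfl, if_pos rfl, if_pos rfl]
        exact h5
      all_goals first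
        | exact fun h => absurd (Finset.mem_univ _) h
        | exact fun l _ hl => if_neg (fun h => hl (Fin.ext h)))
  have h8 := h7 ⟨i, by omega⟩
  have h9 := h7 ⟨j, by omega⟩
  have h10 := h7 ⟨k, by omega⟩
  rw [if_pos rfl, if_neg hij, if_neg hik, add_zero, add_zero] at h8
  rw [if_neg (Ne.symm hij), if_pos rfl, if_neg hjk, add_zero, zero_add] at h9
  rw [if_neg (Ne.symm hik), if_neg (Ne.symm hjk), if_pos rfl, zero_add, zero_add] at h10
  exact ⟨congrArg Subtype.val h8, congrArg Subtype.val h9, congrArg Subtype.val h10⟩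

lemma ofReal_pow_mul (u t : ℝ) (k : ℕ) :
    (u : ℂ) ^ k * (Real.log t : ℂ) = ((u ^ k : ℝ) : ℂ) * (Real.log t : ℂ) := by push_cast; rfl

/-- consecutive exponents -/
theorem one_consecutive {u t : ℝ} (hu : Transcendental ℚ (u : ℂ)) (huL : (u : ℂ) ∈ Lt)
    (ht : 0 < t) (ht1 : t ≠ 1) {j k : ℕ} (hj : Good (u ^ j) t) (hj1 : Good (u ^ (j + 1)) t)
    (hk : Good (u ^ k) t) (hk1 : Good (u ^ (k + 1)) t) : j = k := by
  by_contra hjk
  have hz : (Real.log t : ℂ) ≠ 0 := by
    exact_mod_cast Real.log_ne_zero_of_pos_of_ne_one ht ht1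
  have h1 := hj.mem_LB ht
  have h2 := hk.mem_LB ht
  have h3 := hj1.mem ht
  have h4 := hk1.mem ht
  rw [← ofReal_pow_mul] at h1 h2 h3 h4
  refine six' 1 u 1 ((u : ℂ) ^ j * (Real.log t : ℂ)) ((u : ℂ) ^ k * (Real.log t : ℂ))
    (pair_alg hu) (lb_pair hu hz hjk h1 h2) ?_ ?_ ?_ ?_ ?_ ?_
  · rw [mul_one]; exact Lt_one
  · rw [one_mul]; exact LB_Lt h1
  · rw [one_mul]; exact LB_Lt h2
  · rwa [mul_one]
  · rw [← mul_assoc, ← pow_succ']; exact h3
  · rw [← mul_assoc, ← pow_succ']; exact h4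

/-- pairs of exponents with a given difference -/
theorem two_pairs {u t : ℝ} (hu : Transcendental ℚ (u : ℂ))
    (ht : 0 < t) (ht1 : t ≠ 1) {h i j k : ℕ} (hh : h ≠ 0) (hij : i ≠ j) (hik : i ≠ k)
    (hjk : j ≠ k) (hi : Good (u ^ i) t) (hi1 : Good (u ^ (i + h)) t) (hj : Good (u ^ j) t)
    (hj1 : Good (u ^ (j + h)) t) (hk : Good (u ^ k) t) (hk1 : Good (u ^ (k + h)) t) : False := by
  have hz : (Real.log t : ℂ) ≠ 0 := by
    exact_mod_cast Real.log_ne_zero_of_pos_of_ne_one ht ht1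
  have h0 := hi.mem ht
  have h1 := hj.mem ht
  have h2 := hk.mem ht
  have h3 := hi1.mem ht
  have h4 := hj1.mem ht
  have h5 := hk1.mem ht
  rw [← ofReal_pow_mul] at h0 h1 h2 h3 h4 h5
  have huh : Transcendental ℚ ((u : ℂ) ^ h) := hu.pow (Nat.pos_of_ne_zero hh)
  refine six' 1 ((u : ℂ) ^ h) ((u : ℂ) ^ i * (Real.log t : ℂ)) ((u : ℂ) ^ j * (Real.log t : ℂ))
    ((u : ℂ) ^ k * (Real.log t : ℂ))
    (pair_alg huh) (three_powers hu hz hij hik hjk) ?_ ?_ ?_ ?_ ?_ ?_
  · rwa [one_mul]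
  · rwa [one_mul]
  · rwa [one_mul]
  · rw [← mul_assoc, ← pow_add, add_comm]; exact h3
  · rw [← mul_assoc, ← pow_add, add_comm]; exact h4
  · rw [← mul_assoc, ← pow_add, add_comm]; exact h5

/-- **Counting exponents.** -/
theorem count_exponents {u t : ℝ} (hu : Transcendental ℚ (u : ℂ)) (ht : 0 < t) (ht1 : t ≠ 1)
    (N s : ℕ) (hN : 1 ≤ N) (hs : s = {k : ℕ | 1 ≤ k ∧ k ≤ N ∧ Good (u ^ k) t}.ncard) :
    s * (s - 1) ≤ 4 * (N - 1) := by
  classical
  set T : Finset ℕ := (Finset.Icc 1 N).filter (fun k => Good (u ^ k) t) with hT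
  have hTS : {k : ℕ | 1 ≤ k ∧ k ≤ N ∧ Good (u ^ k) t} = (T : Set ℕ) := by
    ext k
    rw [hT, Finset.coe_filter]
    simp only [Finset.mem_Icc, and_assoc]
  rw [hTS, Set.ncard_coe_finset] at hs
  have hlt : ((T ×ˢ T).filter (fun p : ℕ × ℕ => p.1 < p.2)).card ≤ 2 * (N - 1) := by
    have h1 : ((T ×ˢ T).filter (fun p : ℕ × ℕ => p.1 < p.2)).card ≤
        2 * (Finset.Icc 1 (N - 1)).card := by
      apply Finset.card_le_mul_card_image_of_maps_to (f := fun p : ℕ × ℕ => p.2 - p.1)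
      · intro p hp
        rw [Finset.mem_filter, Finset.mem_product, hT, Finset.mem_filter, Finset.mem_filter,
          Finset.mem_Icc, Finset.mem_Icc] at hp
        rw [Finset.mem_Icc]
        omega
      · intro h hh
        by_contra hcon
        push Not at hcon
        obtain ⟨p, hp, q, hq, r, hr, hpq, hpr, hqr⟩ := Finset.two_lt_card.mp hcon
        rw [Finset.mem_filter, Finset.mem_filter, Finset.mem_product, hT, Finset.mem_filter,
          Finset.mem_filter] at hp hq hr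
        obtain ⟨⟨⟨⟨-, hp1⟩, -, hp2⟩, hp3⟩, hp4⟩ := hp
        obtain ⟨⟨⟨⟨-, hq1⟩, -, hq2⟩, hq3⟩, hq4⟩ := hq
        obtain ⟨⟨⟨⟨-, hr1⟩, -, hr2⟩, hr3⟩, hr4⟩ := hr
        rw [Finset.mem_Icc] at hh
        have e1 : p.2 = p.1 + h := by omega
        have e2 : q.2 = q.1 + h := by omega
        have e3 : r.2 = r.1 + h := by omega
        rw [e1] at hp2
        rw [e2] at hq2
        rw [e3] at hr2
        have n1 : p.1 ≠ q.1 := fun h' => hpq (Prod.ext h' (by rw [e1, e2, h']))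
        have n2 : p.1 ≠ r.1 := fun h' => hpr (Prod.ext h' (by rw [e1, e3, h']))
        have n3 : q.1 ≠ r.1 := fun h' => hqr (Prod.ext h' (by rw [e2, e3, h']))
        exact two_pairs hu ht ht1 (by omega) n1 n2 n3 hp1 hp2 hq1 hq2 hr1 hr2
    rwa [Nat.card_Icc, Nat.add_sub_cancel] at h1
  have hgt : ((T ×ˢ T).filter (fun p : ℕ × ℕ => p.2 < p.1)).card =
      ((T ×ˢ T).filter (fun p : ℕ × ℕ => p.1 < p.2)).card := by
    apply Finset.card_bij (fun p _ => (p.2, p.1))
    · intro p hp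
      rw [Finset.mem_filter, Finset.mem_product] at hp ⊢
      exact ⟨⟨hp.1.2, hp.1.1⟩, hp.2⟩
    · intro p _ q _ hpq
      rw [Prod.mk.injEq] at hpq
      exact Prod.ext hpq.2 hpq.1
    · intro p hp
      refine ⟨(p.2, p.1), ?_, rfl⟩
      rw [Finset.mem_filter, Finset.mem_product] at hp ⊢
      exact ⟨⟨hp.1.2, hp.1.1⟩, hp.2⟩
  have hoff : T.offDiag ⊆ ((T ×ˢ T).filter (fun p : ℕ × ℕ => p.1 < p.2)) ∪
      ((T ×ˢ T).filter (fun p : ℕ × ℕ => p.2 < p.1)) := by
    intro p hp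
    rw [Finset.mem_offDiag] at hp
    rw [Finset.mem_union, Finset.mem_filter, Finset.mem_filter, Finset.mem_product]
    rcases lt_or_gt_of_ne hp.2.2 with h | h
    · exact Or.inl ⟨⟨hp.1, hp.2.1⟩, h⟩
    · exact Or.inr ⟨⟨hp.1, hp.2.1⟩, h⟩
  have h1 := (Finset.card_le_card hoff).trans (Finset.card_union_le _ _)
  rw [hgt, Finset.offDiag_card] at h1
  have h3 : s * (s - 1) = T.card * T.card - T.card := by
    rw [hs, Nat.mul_sub, mul_one]
  rw [h3]
  omega

end Pool.Agent.X148.TR
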