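import Pool.Agent.X148.TR.Expo
import Pool.Agent.W254.HP.Four

set_option autoImplicit false

/-!
# Polynomials in exponentials of algebraic numbers
-/

namespace Pool.Agent.X148.TR

open Module
open Pool.Agent.H301R2.SSE (QB mem_QB Lt Lt_rep Lt_mul Lt_alg Lt_log strong_six)
open Pool.Agent.TH379.PER
open Pool.Agent.W254.HP (boxV aeval_mem_boxV finrank_boxV_le)

/-- the polynomials in `r` variables, of degree at most `D` in each, whose value at
`(e ^ α 0, ..., e ^ α (r - 1))` is in `Forms γ` -/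
noncomputable def expPolySpace {g r : ℕ} (γ : Fin g → ℂ) (α : Fin r → ℂ) (D : ℕ) :
    Submodule (algebraicClosure ℚ ℂ) (MvPolynomial (Fin r) (algebraicClosure ℚ ℂ)) :=
  (Forms γ).comap (MvPolynomial.aeval (fun i => Complex.exp (α i))).toLinearMap ⊓
    MvPolynomial.restrictDegree (Fin r) (algebraicClosure ℚ ℂ) D

lemma exp_aeval_inj {r : ℕ} {α : Fin r → ℂ} (hα : ∀ i, IsAlgebraic ℚ (α i))
    (hli : LinearIndependent ℚ α) : Function.Injective
    (MvPolynomial.aeval (R := QB) (fun i => Complex.exp (α i))).toLinearMap := by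
  classical
  rw [← LinearMap.ker_eq_bot, LinearMap.ker_eq_bot']
  intro P hP
  have hP' : MvPolynomial.aeval (fun i => Complex.exp (α i)) P = 0 := hP
  by_contra hne
  obtain ⟨m0, hm0⟩ := MvPolynomial.support_nonempty.mpr hne
  have h1 := Pool.Agent.H340R2.LW.lindemann_weierstrass (ι := Fin r →₀ ℕ) P.support
    (fun m => ∑ i, ((m i : ℕ) : ℂ) * α i) (fun m => ((MvPolynomial.coeff m P : QB) : ℂ))
    (fun m _ => mem_QB.mp (sum_mem (fun i _ =>
      mem_QB.mpr ((isAlgebraic_natCast (m i : ℕ)).mul (hα i)))))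
    (fun m _ => mem_QB.mp (MvPolynomial.coeff m P).2) (by
      intro n _ m _ hnm
      have hnm' : ∑ i, ((n i : ℕ) : ℂ) * α i = ∑ i, ((m i : ℕ) : ℂ) * α i := hnm
      have h1 := Fintype.linearIndependent_iff.mp hli
        (fun i => ((n i : ℕ) : ℚ) - ((m i : ℕ) : ℚ)) (by
          simp only [Rat.smul_def, Rat.cast_sub, Rat.cast_natCast, sub_mul,
            Finset.sum_sub_distrib]
          rw [hnm', sub_self])
      ext i
      have h2 := h1 i
      rw [sub_eq_zero] at h2
      exact_mod_cast h2) (by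
      rw [MvPolynomial.aeval_def, MvPolynomial.eval₂_eq'] at hP'
      rw [← hP']
      refine Finset.sum_congr rfl (fun m _ => ?_)
      have h2 : ∏ i, Complex.exp (α i) ^ m i = Complex.exp (∑ i, ((m i : ℕ) : ℂ) * α i) := by
        rw [Complex.exp_sum]
        exact Finset.prod_congr rfl (fun i _ => (Complex.exp_nat_mul _ _).symm)
      rw [h2]
      rfl) m0 hm0
  rw [MvPolynomial.mem_support_iff] at hm0
  exact hm0 (Subtype.ext h1)

theorem expPoly_bound {g r : ℕ} (γ : Fin g → ℂ) {α : Fin r → ℂ} (hα : ∀ i, IsAlgebraic ℚ (α i))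
    (hli : LinearIndependent ℚ α) (D : ℕ) :
    (finrank QB (expPolySpace γ α D) : ℝ) ≤ 2 ^ (r + 1) * Real.sqrt ((D + 1) ^ r) + g := by
  set t : Fin r → ℂ := fun i => Complex.exp (α i) with ht
  have : FiniteDimensional QB (boxV t (D + 1)) := by
    unfold boxV
    exact FiniteDimensional.span_of_finite QB (Set.finite_range _)
  have : FiniteDimensional QB ↥(boxV t (D + 1) ⊓ Forms γ) :=
    Submodule.finiteDimensional_of_le inf_le_left
  have h1 : finrank QB (expPolySpace γ α D) ≤ finrank QB ↥(boxV t (D + 1) ⊓ Forms γ) := by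
    rw [(Submodule.equivMapOfInjective _ (exp_aeval_inj hα hli) (expPolySpace γ α D)).finrank_eq]
    apply Submodule.finrank_mono
    rintro _ ⟨P, hP, rfl⟩
    exact ⟨aeval_mem_boxV t D P ((MvPolynomial.mem_restrictDegree _ _ _).mp hP.2), hP.1⟩
  have h2 := box_main γ t (D + 1)
  have h3 := finrank_boxV_le t (D + 1)
  have h4 : Real.sqrt (finrank QB (boxV t (D + 1))) ≤ Real.sqrt ((D + 1) ^ r) := by
    apply Real.sqrt_le_sqrt
    exact_mod_cast h3
  have h5 : (finrank QB (expPolySpace γ α D) : ℝ) ≤ finrank QB ↥(boxV t (D + 1) ⊓ Forms γ) := by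
    exact_mod_cast h1
  have h6 : (0 : ℝ) < 2 ^ (r + 1) := by positivity
  have h7 := mul_le_mul_of_nonneg_left h4 h6.le
  linarith

theorem poly_bound {g : ℕ} (γ : Fin g → ℂ) (D : ℕ) :
    (finrank QB (polySpace γ D) : ℝ) ≤ 2 * Real.sqrt D + 1 + g :=
  opt _ D g (fun d hd => poly_ineq γ D d hd)

end Pool.Agent.X148.TR
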